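import Mathlib
import Pool.Agent.N183.U8.E5

/-!
# Elements supported on several good factors kill the Tate tensors
-/

set_option linter.unusedSectionVars false
set_option linter.unusedVariables false

namespace Pool.Agent.N183.U9

open Matrix Module Pool.Agent.W437.HC Pool.Agent.W437.HD Pool.Agent.W548.Odd
open Pool.Agent.H204R3.SP Pool.Agent.H204R3.GP Pool.Agent.Y90 Pool.Agent.Y224.TS TensorProduct
open Pool.Agent.Y224.TS.St (IsHodgeTate IsTateModule)
open Pool.Agent.W437.HP (cK cK_mul cK_one)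
open Pool.Agent.R915 (VE mem_VE descent_gen commL_of IsFactor RealMax)
open Pool.Agent.N183.TS Pool.Agent.N183.U5 Pool.Agent.N183.U6 Pool.Agent.N183.U8

noncomputable section

variable {K : Type} [Field K] [CharZero K] [Algebra K ℂ] [Algebra.IsAlgebraic K ℂ]
  {Γ : Type} [Group Γ] {X : AV} {E : X.H → X.H → ℚ} {ρ : Representation K Γ (K ⊗[ℚ] X.H)}
  {χ : Γ →* K}

/-- An endomorphism `t` of `H_1(X, ℚ)` which commutes with the endomorphisms of `X`, is skew, has
trace zero with them, and which is zero on the simple abelian subvarieties which are not good, kills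
the Tate tensors. -/
theorem kills_gen (hE : Pool.Agent.Y90.St.IsPolarization X.per E)
    (hρ : IsTateModule X.per E ρ χ) {t : Module.End ℚ X.H}
    (h1 : ∀ f : Module.End ℚ X.H, IsHom X X f → t * f = f * t)
    (h2 : ∀ u v, E (t u) v + E u (t v) = 0)
    (h3 : ∀ f : Module.End ℚ X.H, IsHom X X f → LinearMap.trace ℚ X.H (t * f) = 0)
    (hg : ∀ Y' : AV, IsFactor Y' X → (∃ i : Y'.H →ₗ[ℚ] X.H, IsHom Y' X i ∧ t ∘ₗ i ≠ 0) →
      GoodNC X ρ Y')
    {m : ℕ} {φ : MultilinearMap K (fun _ : Fin m × Fin 2 => K ⊗[ℚ] X.H) K}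
    (hφ : IsTate ρ χ m φ) : Kills (t.baseChange K) φ := by
  classical
  obtain ⟨G, Z, hZ, b, hC, hb⟩ := exists_ppav' (AV.isAV X) hE
  have hTD : TD Z (SH X.per ρ χ b) := td_of b hb hC hρ
  obtain ⟨B, hB⟩ := exists_BE (K := K) (by
    obtain ⟨ω, hω, -⟩ := hρ.weil
    exact ⟨ω, hω⟩)
  set T := LinearMap.toMatrix b b t with hT
  have hmat : ∀ R : Matrix (Fin G ⊕ Fin G) (Fin G ⊕ Fin G) ℚ,
      LinearMap.toMatrix b b (Matrix.toLin b b R) = R := fun R => LinearMap.toMatrix_toLin _ _ _
  have hhom : ∀ R : Matrix (Fin G ⊕ Fin G) (Fin G ⊕ Fin G) ℚ, qm R * DZ Z = DZ Z * qm R →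
      IsHom X X (Matrix.toLin b b R) := fun R hR => (hom_DZ b hC _).2 (by rw [hmat]; exact hR)
  have hLT : qm T ∈ Y224.TS.LT (SH X.per ρ χ b) := by
    refine part1_m hTD hZ (fun R hR => ?_) (om_of_mat ((skew_iff b hB hb t).1 h2))
      (fun R hR => ?_) ?_
    · have h1 := congrArg (LinearMap.toMatrix b b) (h1 _ (hhom R hR))
      rw [LinearMap.toMatrix_mul, LinearMap.toMatrix_mul, hmat, ← hT] at h1
      rw [← qm_mul', h1, qm_mul']
    · have h1 := h3 _ (hhom R hR)
      rw [LinearMap.trace_eq_matrix_trace ℚ b, LinearMap.toMatrix_mul, hmat, ← hT] at h1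
      rw [← qm_mul', trace_qm, h1, Rat.cast_zero]
    · intro a Z' E' F' hf h' hs ha hne U hU
      obtain ⟨hi, hfa, p, hp, hpv⟩ := fac_hom b hC h' hf hs ha
      refine GoodNC.lm leafF4 h' hZ hC hTD hf (R915.simple_of a h' hs ha) ha hi
        (hg _ hfa ⟨_, hi, fun h0 => hne ?_⟩) hU
      have h4 : T * E' = 0 := by
        ext r c
        have h5 := congrArg b.equivFun (LinearMap.congr_fun h0 (Pi.single c 1))
        rw [LinearMap.comp_apply, LinearMap.zero_apply, map_zero] at h5
        have h6 : b.equivFun (t (inc h' b E' (Pi.single c 1))) =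
            T *ᵥ (E' *ᵥ (Pi.single c 1)) := by
          have h7 := LinearMap.toMatrix_mulVec_repr b b t (inc h' b E' (Pi.single c 1))
          change T *ᵥ b.equivFun (inc h' b E' (Pi.single c 1)) = b.equivFun _ at h7
          rw [← h7]
          congr 1
          change b.equivFun (b.equivFun.symm (Matrix.mulVecLin E' (Pi.single c 1))) = _
          rw [LinearEquiv.apply_symm_apply]
          rfl
        rw [h6, mulVec_mulVec, mulVec_single_one] at h5
        exact congrFun h5 r
      have h5 : qm T * cK ℂ E' = 0 := by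
        have h6 : cK ℂ (T * E') = cK ℂ T * cK ℂ E' := by rw [cK_mul]
        have h7 : cK ℂ (T * E') = 0 := by
          rw [h4]
          ext i j
          simp [cK]
        rw [h7] at h6
        exact h6.symm
      rw [← Matrix.mul_assoc, h5, Matrix.zero_mul]
  have hk := kills_LT (FC_kills b φ hφ) hLT
  intro v
  have hinj : Function.Injective (algebraMap K ℂ) := (algebraMap K ℂ).injective
  apply hinj
  rw [map_zero, map_sum]
  have h1 := hk fun k => eY K b ((1 : ℂ) ⊗ₜ[K] v k)
  rw [← h1]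
  refine Finset.sum_congr rfl fun k _ => ?_
  rw [← bcm_one (Ω := ℂ) (bV K b) φ, ← FC_e b φ]
  congr 1
  funext l
  by_cases hl : l = k
  · subst hl
    rw [Function.update_self, Function.update_self]
    change _ = qm T *ᵥ _
    rw [hT, ← mt_bc2 (K := K) b t, mt_mulVec, LinearMap.baseChange_tmul]
  · rw [Function.update_of_ne hl, Function.update_of_ne hl]

end

end Pool.Agent.N183.U9
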