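import Mathlib

/-!
# Rational components of `K`-linear objects
-/

set_option autoImplicit false
set_option linter.unusedSectionVars false

namespace Pool.Agent.N183.U9

open Module TensorProduct

noncomputable section

variable {K : Type} [Field K] [CharZero K] {H : Type} [AddCommGroup H] [Module ℚ H]

/-- Coordinates of a finite dimensional `ℚ`-subspace of `K`. -/
theorem exists_coordK (W : Submodule ℚ K) [FiniteDimensional ℚ W] :
    ∃ (m : ℕ) (c : Fin m → K) (l : Fin m → (K →ₗ[ℚ] ℚ)), ∀ x ∈ W, x = ∑ j, (l j x : K) * c j := by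
  let b := Module.finBasis ℚ W
  have h1 : ∀ j, ∃ g : K →ₗ[ℚ] ℚ, g ∘ₗ W.subtype = b.coord j := fun j =>
    LinearMap.exists_extend (b.coord j)
  choose l hl using h1
  refine ⟨_, fun j => (b j : K), l, fun x hx => ?_⟩
  have h2 := congrArg (W.subtype) (b.sum_repr ⟨x, hx⟩)
  rw [map_sum] at h2
  change _ = x at h2
  conv_lhs => rw [← h2]
  refine Finset.sum_congr rfl fun j _ => ?_
  rw [map_smul, Rat.smul_def]
  have h3 := LinearMap.congr_fun (hl j) ⟨x, hx⟩
  change l j x = b.repr ⟨x, hx⟩ j at h3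
  rw [h3]
  rfl

/-- The component `(l ⊗ 1)(x)` of `x ∈ K ⊗ H`. -/
def cmp (l : K →ₗ[ℚ] ℚ) : K ⊗[ℚ] H →ₗ[ℚ] H :=
  (TensorProduct.lid ℚ H).toLinearMap.comp (l.rTensor H)

theorem cmp_tmul (l : K →ₗ[ℚ] ℚ) (k : K) (h : H) : cmp l (k ⊗ₜ h) = l k • h := by
  change TensorProduct.lid ℚ H (l.rTensor H (k ⊗ₜ h)) = _
  rw [LinearMap.rTensor_tmul, TensorProduct.lid_tmul]

theorem cmp_map {H' : Type} [AddCommGroup H'] [Module ℚ H'] (l : K →ₗ[ℚ] ℚ) (f : H →ₗ[ℚ] H')
    (x : K ⊗[ℚ] H) : cmp l (f.baseChange K x) = f (cmp l x) := by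
  induction x with
  | zero => simp
  | add x y hx hy => rw [map_add, map_add, hx, hy, map_add, map_add]
  | tmul k h => rw [LinearMap.baseChange_tmul, cmp_tmul, cmp_tmul, map_smul]

/-- Reconstruction. -/
theorem exists_rec [FiniteDimensional ℚ H] {ι : Type} [Finite ι] (x : ι → K ⊗[ℚ] H) :
    ∃ (m : ℕ) (c : Fin m → K) (l : Fin m → (K →ₗ[ℚ] ℚ)),
      ∀ i, x i = ∑ j, c j ⊗ₜ[ℚ] cmp (l j) (x i) := by
  classical
  let b := Module.finBasis ℚ H
  let B := Algebra.TensorProduct.basis K b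
  let W : Submodule ℚ K := Submodule.span ℚ (Set.range fun p : ι × Fin (finrank ℚ H) =>
    B.repr (x p.1) p.2)
  have : FiniteDimensional ℚ W := FiniteDimensional.span_of_finite ℚ (Set.finite_range _)
  obtain ⟨m, c, l, hl⟩ := exists_coordK W
  refine ⟨m, c, l, fun i => ?_⟩
  have h1 : x i = ∑ p, (B.repr (x i) p) ⊗ₜ[ℚ] b p := by
    conv_lhs => rw [← B.sum_repr (x i)]
    refine Finset.sum_congr rfl fun p _ => ?_
    rw [Algebra.TensorProduct.basis_apply, TensorProduct.smul_tmul', smul_eq_mul, mul_one]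
  have h2 : ∀ p, B.repr (x i) p = ∑ j, (l j (B.repr (x i) p) : K) * c j := fun p =>
    hl _ (Submodule.subset_span ⟨(i, p), rfl⟩)
  have h3 : ∀ j, cmp (l j) (x i) = ∑ p, l j (B.repr (x i) p) • b p := by
    intro j
    conv_lhs => rw [h1]
    rw [map_sum]
    exact Finset.sum_congr rfl fun p _ => cmp_tmul _ _ _
  conv_lhs => rw [h1]
  calc ∑ p, (B.repr (x i) p) ⊗ₜ[ℚ] b p
      = ∑ p, ∑ j, c j ⊗ₜ[ℚ] (l j (B.repr (x i) p) • b p) := by
        refine Finset.sum_congr rfl fun p _ => ?_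
        conv_lhs => rw [h2 p]
        rw [TensorProduct.sum_tmul]
        refine Finset.sum_congr rfl fun j _ => ?_
        rw [← TensorProduct.smul_tmul, Rat.smul_def]
    _ = ∑ j, c j ⊗ₜ[ℚ] cmp (l j) (x i) := by
        rw [Finset.sum_comm]
        refine Finset.sum_congr rfl fun j _ => ?_
        rw [h3, TensorProduct.tmul_sum]

/-- The rational components of an endomorphism of `K ⊗ H`. -/
def cme (l : K →ₗ[ℚ] ℚ) (T : Module.End K (K ⊗[ℚ] H)) : Module.End ℚ H :=
  (cmp l).comp ((T.restrictScalars ℚ).comp (TensorProduct.mk ℚ K H 1))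

theorem cme_apply (l : K →ₗ[ℚ] ℚ) (T : Module.End K (K ⊗[ℚ] H)) (u : H) :
    cme l T u = cmp l (T (1 ⊗ₜ u)) := rfl

theorem cme_mul (l : K →ₗ[ℚ] ℚ) (T : Module.End K (K ⊗[ℚ] H)) (f : Module.End ℚ H) :
    cme l (T * f.baseChange K) = cme l T * f := by
  refine LinearMap.ext fun u => ?_
  rw [cme_apply, End.mul_apply, LinearMap.baseChange_tmul]
  rfl

theorem cme_mul' (l : K →ₗ[ℚ] ℚ) (T : Module.End K (K ⊗[ℚ] H)) (f : Module.End ℚ H) :
    cme l (f.baseChange K * T) = f * cme l T := by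
  refine LinearMap.ext fun u => ?_
  rw [cme_apply, End.mul_apply, cmp_map]
  rfl

theorem cme_zero (l : K →ₗ[ℚ] ℚ) : cme l (0 : Module.End K (K ⊗[ℚ] H)) = 0 := by
  refine LinearMap.ext fun u => ?_
  rw [cme_apply, LinearMap.zero_apply, map_zero]
  rfl

theorem trace_cme [FiniteDimensional ℚ H] (l : K →ₗ[ℚ] ℚ) (T : Module.End K (K ⊗[ℚ] H)) :
    LinearMap.trace ℚ H (cme l T) = l (LinearMap.trace K (K ⊗[ℚ] H) T) := by
  classical
  let b := Module.finBasis ℚ H
  let B := Algebra.TensorProduct.basis K b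
  rw [LinearMap.trace_eq_matrix_trace ℚ b, LinearMap.trace_eq_matrix_trace K B, Matrix.trace,
    Matrix.trace, map_sum]
  refine Finset.sum_congr rfl fun i _ => ?_
  rw [Matrix.diag_apply, Matrix.diag_apply, LinearMap.toMatrix_apply, LinearMap.toMatrix_apply,
    cme_apply]
  have h1 : ∀ x : K ⊗[ℚ] H, b.repr (cmp l x) i = l (B.repr x i) := by
    intro x
    induction x with
    | zero => simp
    | add x y hx hy => rw [map_add, map_add, Finsupp.add_apply, hx, hy, map_add,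
        Finsupp.add_apply, map_add]
    | tmul k h =>
      rw [cmp_tmul, map_smul, Finsupp.smul_apply, Algebra.TensorProduct.basis_repr_tmul,
        Finsupp.smul_apply, Finsupp.mapRange_apply, smul_eq_mul, smul_eq_mul]
      have h2 : k * algebraMap ℚ K (b.repr h i) = b.repr h i • k := by
        rw [Rat.smul_def, mul_comm]
        rfl
      rw [h2, map_smul, smul_eq_mul, mul_comm]
  rw [h1, Algebra.TensorProduct.basis_apply]

/-- Reconstruction of an endomorphism. -/
theorem exists_rec_end [FiniteDimensional ℚ H] (T : Module.End K (K ⊗[ℚ] H)) :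
    ∃ (m : ℕ) (c : Fin m → K) (l : Fin m → (K →ₗ[ℚ] ℚ)),
      T = ∑ j, c j • (cme (l j) T).baseChange K := by
  classical
  let b := Module.finBasis ℚ H
  obtain ⟨m, c, l, h⟩ := exists_rec fun i => T (1 ⊗ₜ b i)
  refine ⟨m, c, l, (Algebra.TensorProduct.basis K b).ext fun i => ?_⟩
  rw [Algebra.TensorProduct.basis_apply, h i, LinearMap.sum_apply]
  refine Finset.sum_congr rfl fun j _ => ?_
  rw [LinearMap.smul_apply, LinearMap.baseChange_tmul, cme_apply, TensorProduct.smul_tmul',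
    smul_eq_mul, mul_one]

end

end Pool.Agent.N183.U9
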