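import Mathlib
import Pool.Agent.N183.U9.K1
import Pool.Agent.N183.U9.L1

/-!
# Operators which kill the Tate tensors
-/

set_option autoImplicit false
set_option linter.unusedSectionVars false

namespace Pool.Agent.N183.U9

open Matrix Module Pool.Agent.Y90 TensorProduct Pool.Agent.W437.HC Pool.Agent.N183.U8
open Pool.Agent.H204R3.SP Pool.Agent.Y224.TS
open Pool.Agent.Y224.TS.St (IsTateModule)

noncomputable section

section bil

variable {Ω : Type} [Field Ω] {V : Type} [AddCommGroup V] [Module Ω V]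
  {Γ : Type} [Group Γ] {ρ : Representation Ω Γ V} {χ : Γ →* Ω}

/-- The bilinear forms `ω(f u, v)` are Tate forms. -/
theorem isTate_bil {ω : V →ₗ[Ω] V →ₗ[Ω] Ω} (hω : ∀ s u v, ω (ρ s u) (ρ s v) = χ s * ω u v)
    {f : Module.End Ω V} {Δ : Subgroup Γ} (hΔ : Δ.FiniteIndex)
    (hf : ∀ g ∈ Δ, ∀ v, ρ g (f v) = f (ρ g v)) :
    IsTate ρ χ 1 (Pool.Agent.H204R3.CM.prodMap (fun _ : Fin 1 => bil2 (ω.comp f))) := by
  refine ⟨Δ, hΔ, fun s hs v => ?_⟩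
  rw [Pool.Agent.H204R3.CM.prodMap_apply, Pool.Agent.H204R3.CM.prodMap_apply, Fin.prod_univ_one,
    Fin.prod_univ_one, bil2_apply, bil2_apply, LinearMap.comp_apply, LinearMap.comp_apply,
    ← hf s hs, hω, pow_one]

theorem kills_bil {ω : V →ₗ[Ω] V →ₗ[Ω] Ω} (hω : ∀ s u v, ω (ρ s u) (ρ s v) = χ s * ω u v)
    {f : Module.End Ω V} {Δ : Subgroup Γ} (hΔ : Δ.FiniteIndex)
    (hf : ∀ g ∈ Δ, ∀ v, ρ g (f v) = f (ρ g v)) {T : Module.End Ω V}
    (hT : ∀ m φ, IsTate ρ χ m φ → Kills T φ) (u w : V) : ω (f (T u)) w + ω (f u) (T w) = 0 := by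
  have h1 := hT 1 _ (isTate_bil hω hΔ hf) (fun k => if k.2 = 0 then u else w)
  rw [Fintype.sum_prod_type, Fin.sum_univ_one, Fin.sum_univ_two] at h1
  simp only [Pool.Agent.H204R3.CM.prodMap_apply, Fin.prod_univ_one, bil2_apply,
    LinearMap.comp_apply] at h1
  simpa using h1

end bil

variable {K : Type} [Field K] [CharZero K] [Algebra K ℂ] {Γ : Type} [Group Γ] {X : AV}
  {E : X.H → X.H → ℚ} {ρ : Representation K Γ (K ⊗[ℚ] X.H)} {χ : Γ →* K}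

omit [Algebra K ℂ] in
theorem cmp_om {ω : (K ⊗[ℚ] X.H) →ₗ[K] (K ⊗[ℚ] X.H) →ₗ[K] K}
    (hω : ∀ u v : X.H, ω (1 ⊗ₜ u) (1 ⊗ₜ v) = ((E u v : ℚ) : K)) {B : X.H →ₗ[ℚ] X.H →ₗ[ℚ] ℚ}
    (hB : ∀ u v, B u v = E u v) (l : K →ₗ[ℚ] ℚ) (x : K ⊗[ℚ] X.H) (v : X.H) :
    l (ω x (1 ⊗ₜ v)) = B (cmp l x) v ∧ l (ω (1 ⊗ₜ v) x) = B v (cmp l x) := by
  have h3 : ∀ (k : K) (q : ℚ), l (k * (q : K)) = l k * q := by
    intro k q
    have h4 : k * (q : K) = q • k := by rw [Rat.smul_def, mul_comm]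
    rw [h4, map_smul, smul_eq_mul, mul_comm]
  induction x with
  | zero => simp
  | add x y hx hy =>
    constructor
    · rw [map_add, LinearMap.add_apply, map_add, hx.1, hy.1, map_add, map_add,
        LinearMap.add_apply]
    · rw [map_add, map_add, hx.2, hy.2, map_add, map_add]
  | tmul k h =>
    have h1 : k ⊗ₜ[ℚ] h = k • ((1 : K) ⊗ₜ[ℚ] h) := by
      rw [TensorProduct.smul_tmul', smul_eq_mul, mul_one]
    have e1 : ω (k • ((1 : K) ⊗ₜ[ℚ] h)) (1 ⊗ₜ v) = k * ((E h v : ℚ) : K) := by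
      rw [map_smul, LinearMap.smul_apply, hω, smul_eq_mul]
    have e2 : ω (1 ⊗ₜ v) (k • ((1 : K) ⊗ₜ[ℚ] h)) = k * ((E v h : ℚ) : K) := by
      rw [map_smul, hω, smul_eq_mul]
    constructor
    · rw [cmp_tmul, h1, e1, h3, map_smul, LinearMap.smul_apply, smul_eq_mul, hB]
    · rw [cmp_tmul, h1, e2, h3, map_smul, smul_eq_mul, hB]

/-- The Riemann form is nondegenerate. -/
theorem nd_E (hE : Pool.Agent.Y90.St.IsPolarization X.per E) {B : X.H →ₗ[ℚ] X.H →ₗ[ℚ] ℚ}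
    (hB : ∀ u v, B u v = E u v) {x : X.H} (hx : ∀ v, B x v = 0) : x = 0 := by
  classical
  obtain ⟨G, Z, hZ, b, hC, hb⟩ := exists_ppav' (AV.isAV X) hE
  have h1 : Om G ℚ *ᵥ b.equivFun x = 0 := by
    funext p
    have h2 := hx (b p)
    conv_lhs at h2 => rw [← b.sum_repr x]
    rw [map_sum, LinearMap.sum_apply] at h2
    rw [Pi.zero_apply, ← h2, Matrix.mulVec, dotProduct]
    refine Finset.sum_congr rfl fun q _ => ?_
    rw [map_smul, LinearMap.smul_apply, smul_eq_mul, hB, hb, mul_comm]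
    rfl
  have h2 : b.equivFun x = 0 := by
    have h3 := congrArg (fun w => Om G ℚ *ᵥ w) h1
    simp only [mulVec_mulVec, Om_sq, mulVec_zero, Matrix.neg_mulVec, one_mulVec] at h3
    exact neg_eq_zero.1 h3
  exact (LinearEquiv.map_eq_zero_iff _).1 h2

/-- The form over `K` is nondegenerate. -/
theorem nd_om (hE : Pool.Agent.Y90.St.IsPolarization X.per E)
    {ω : (K ⊗[ℚ] X.H) →ₗ[K] (K ⊗[ℚ] X.H) →ₗ[K] K}
    (hω : ∀ u v : X.H, ω (1 ⊗ₜ u) (1 ⊗ₜ v) = ((E u v : ℚ) : K)) {x : K ⊗[ℚ] X.H}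
    (hx : ∀ v : X.H, ω x (1 ⊗ₜ v) = 0) : x = 0 := by
  obtain ⟨B, hB⟩ := exists_BE ⟨ω, hω⟩
  have hfd : FiniteDimensional ℚ X.H := (AV.isAV X).1
  obtain ⟨m, c, l, h⟩ := exists_rec fun _ : Unit => x
  rw [h ()]
  refine Finset.sum_eq_zero fun j _ => ?_
  have h1 : cmp (l j) x = 0 := nd_E hE hB fun v => by
    rw [← (cmp_om hω hB (l j) x v).1, hx, map_zero]
  rw [h1, TensorProduct.tmul_zero]

/-- Operators which kill the Tate tensors are skew. -/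
theorem skew_of_kills {ω : (K ⊗[ℚ] X.H) →ₗ[K] (K ⊗[ℚ] X.H) →ₗ[K] K}
    (hωρ : ∀ g u v, ω (ρ g u) (ρ g v) = χ g * ω u v) {T : Module.End K (K ⊗[ℚ] X.H)}
    (hT : ∀ m φ, IsTate ρ χ m φ → Kills T φ) (u v : K ⊗[ℚ] X.H) :
    ω (T u) v + ω u (T v) = 0 :=
  kills_bil (f := 1) (Δ := ⊤) hωρ inferInstance (fun _ _ _ => rfl) hT u v

/-- Operators which kill the Tate tensors commute with the endomorphisms. -/
theorem comm_of_kills (hE : Pool.Agent.Y90.St.IsPolarization X.per E)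
    (hρ : IsTateModule X.per E ρ χ) {T : Module.End K (K ⊗[ℚ] X.H)}
    (hT : ∀ m φ, IsTate ρ χ m φ → Kills T φ) {f : Module.End ℚ X.H} (hf : IsHom X X f) :
    T * f.baseChange K = f.baseChange K * T := by
  obtain ⟨ω, hω, hωρ⟩ := hρ.weil
  obtain ⟨Δ, hΔ, hΔf⟩ := hρ.endo f hf
  refine LinearMap.ext fun u => ?_
  rw [End.mul_apply, End.mul_apply]
  refine sub_eq_zero.1 (nd_om hE hω fun v => ?_)
  have h1 := kills_bil hωρ hΔ hΔf hT u (1 ⊗ₜ v)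
  have h2 := skew_of_kills hωρ hT (f.baseChange K u) (1 ⊗ₜ v)
  rw [map_sub, LinearMap.sub_apply]
  linear_combination h2 - h1

end

end Pool.Agent.N183.U9
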