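import Mathlib
import Pool.Agent.H204R3.SP.Lie
import Pool.Agent.N183.U8.StmA
import Pool.Agent.R915.Stm2

/-!
# The derived Lie algebras of the `ℓ`-adic monodromy groups

`Pool.Agent.H204R3.SP.IsTate ρ χ m φ` says that the multilinear form `φ` in `2 m` variables is a Tate
tensor: a subgroup of finite index acts on it through the `m`-th power of the character `χ`;
`Pool.Agent.H204R3.SP.Kills t φ` says that the endomorphism `t`, acting as a derivation, kills `φ`.
-/

namespace Pool.Agent.N183.U9

open Module Pool.Agent.Y90 Pool.Agent.R915 TensorProduct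
open Pool.Agent.H204R3.SP (IsTate Kills)
open Pool.Agent.N183.U8 (GoodNC)

/-- Extension of scalars. -/
def bc (K : Type) [Field K] [CharZero K] {H : Type} [AddCommGroup H] [Module ℚ H]
    (s : Module.End ℚ H) : Module.End K (K ⊗[ℚ] H) := s.baseChange K

/-- `p` is the projection of `X` on an abelian subvariety `B` along an abelian subvariety `A`, up to
isogeny, where `A` and `B` have no common simple factor and are orthogonal for the Riemann form `E`:
`p` is an idempotent in the centre of `End(X) ⊗ ℚ`, and it is self-adjoint. -/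
structure IsProj (X : AV) (E : X.H → X.H → ℚ) (p : Module.End ℚ X.H) : Prop where
  hom : IsHom X X p
  idem : p * p = p
  cent : ∀ f : Module.End ℚ X.H, IsHom X X f → f * p = p * f
  symm : ∀ u v, E (p u) v = E u (p v)

/-- `Y` is a simple factor of the abelian subvariety `A = ker(p)` of `X`. -/
def IsKerFactor (X : AV) (p : Module.End ℚ X.H) (Y : AV) : Prop :=
  IsFactor Y X ∧ ∃ i : Y.H →ₗ[ℚ] X.H, IsHom Y X i ∧ i ≠ 0 ∧ p ∘ₗ i = 0

/-- The Lie algebra `𝔫_A` over `ℚ`: the endomorphisms `t` of `H_1(X, ℚ)` which commute with the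
endomorphisms of `X`, are skew for `E`, have trace zero with all endomorphisms of `X`, and are zero
on `B`. It is a product of Lie algebras of symplectic and special unitary groups. -/
structure InNA (X : AV) (E : X.H → X.H → ℚ) (p t : Module.End ℚ X.H) : Prop where
  comm : ∀ f : Module.End ℚ X.H, IsHom X X f → t * f = f * t
  skew : ∀ u v, E (t u) v + E u (t v) = 0
  trace : ∀ f : Module.End ℚ X.H, IsHom X X f → LinearMap.trace ℚ X.H (t * f) = 0
  supp : t * p = 0

/-- `T` belongs to the derived Lie algebra of the `ℓ`-adic monodromy group `G_ℓ` of `X`: it kills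
all Tate tensors (so it belongs to the Lie algebra of the reductive group `G_ℓ`), and it has trace
zero with all endomorphisms of `X` (so its central component is zero). -/
structure InG {K : Type} [Field K] [CharZero K] {Γ : Type} [Group Γ] (X : AV)
    (ρ : Representation K Γ (K ⊗[ℚ] X.H)) (χ : Γ →* K) (T : Module.End K (K ⊗[ℚ] X.H)) :
    Prop where
  kills : ∀ (m : ℕ) (φ : MultilinearMap K (fun _ : Fin m × Fin 2 => K ⊗[ℚ] X.H) K),
    IsTate ρ χ m φ → Kills T φ
  trace : ∀ f : Module.End ℚ X.H, IsHom X X f →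
    LinearMap.trace K (K ⊗[ℚ] X.H) (T * bc K f) = 0

/-- `T` belongs to `K ⊗ 𝔫_A`. -/
def InNK (K : Type) [Field K] [CharZero K] (X : AV) (E : X.H → X.H → ℚ) (p : Module.End ℚ X.H)
    (T : Module.End K (K ⊗[ℚ] X.H)) : Prop :=
  T ∈ Submodule.span K (bc K '' {t | InNA X E p t})

/-- `T` belongs to the derived Lie algebra of `G_ℓ` and is zero on `A`. As `G_ℓ(X)` is mapped onto
`G_ℓ(B)` these `T` give the derived Lie algebra of `G_ℓ(B)`, if `InSum` holds. -/
def InGB {K : Type} [Field K] [CharZero K] {Γ : Type} [Group Γ] (X : AV)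
    (ρ : Representation K Γ (K ⊗[ℚ] X.H)) (χ : Γ →* K) (p : Module.End ℚ X.H)
    (T : Module.End K (K ⊗[ℚ] X.H)) : Prop :=
  InG X ρ χ T ∧ T * bc K (1 - p) = 0

/-- The derived Lie algebra of `G_ℓ` is the sum of `K ⊗ 𝔫_A` and of the part of `B`. -/
def InSum {K : Type} [Field K] [CharZero K] {Γ : Type} [Group Γ] (X : AV) (E : X.H → X.H → ℚ)
    (ρ : Representation K Γ (K ⊗[ℚ] X.H)) (χ : Γ →* K) (p : Module.End ℚ X.H) : Prop :=
  ∀ T : Module.End K (K ⊗[ℚ] X.H), InG X ρ χ T ↔
    ∃ T₁ T₂, T = T₁ + T₂ ∧ InNK K X E p T₁ ∧ InGB X ρ χ p T₂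

end Pool.Agent.N183.U9
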