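import Mathlib
import Pool.Agent.N183.U9.L2
import Pool.Agent.N183.U9.StmL

/-!
# The decomposition of the derived Lie algebra
-/

set_option autoImplicit false
set_option linter.unusedSectionVars false

namespace Pool.Agent.N183.U9

open Matrix Module Pool.Agent.Y90 TensorProduct Pool.Agent.N183.U8
open Pool.Agent.H204R3.SP Pool.Agent.Y224.TS
open Pool.Agent.R915 (IsFactor)
open Pool.Agent.Y224.TS.St (IsTateModule)

noncomputable section

theorem Kills.add {Ω V κ : Type} [Field Ω] [AddCommGroup V] [Module Ω V] [Fintype κ]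
    [DecidableEq κ] {φ : MultilinearMap Ω (fun _ : κ => V) Ω} {S T : Module.End Ω V}
    (hS : Kills S φ) (hT : Kills T φ) : Kills (S + T) φ := by
  intro v
  have h1 := hS v
  have h2 := hT v
  rw [← add_zero (0 : Ω)]
  nth_rewrite 1 [← h1]
  rw [← h2, ← Finset.sum_add_distrib]
  refine Finset.sum_congr rfl fun k _ => ?_
  rw [LinearMap.add_apply, MultilinearMap.map_update_add]

theorem Kills.smul {Ω V κ : Type} [Field Ω] [AddCommGroup V] [Module Ω V] [Fintype κ]
    [DecidableEq κ] {φ : MultilinearMap Ω (fun _ : κ => V) Ω} {T : Module.End Ω V} (c : Ω)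
    (hT : Kills T φ) : Kills (c • T) φ := by
  intro v
  have h2 := hT v
  rw [← mul_zero c, ← h2, Finset.mul_sum]
  refine Finset.sum_congr rfl fun k _ => ?_
  rw [LinearMap.smul_apply, MultilinearMap.map_update_smul, smul_eq_mul]

theorem Kills.zero {Ω V κ : Type} [Field Ω] [AddCommGroup V] [Module Ω V] [Fintype κ]
    [DecidableEq κ] {φ : MultilinearMap Ω (fun _ : κ => V) Ω} : Kills (0 : Module.End Ω V) φ := by
  intro v
  refine Finset.sum_eq_zero fun k _ => ?_
  rw [LinearMap.zero_apply]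
  exact φ.map_coord_zero k (Function.update_self _ _ _)

section alg

variable {K : Type} [Field K] [CharZero K] {H : Type} [AddCommGroup H] [Module ℚ H]

theorem bc_mul (s t : Module.End ℚ H) : bc K (s * t) = bc K s * bc K t :=
  LinearMap.baseChange_comp t s

theorem bc_one : bc K (1 : Module.End ℚ H) = 1 := LinearMap.baseChange_id

theorem bc_sub (s t : Module.End ℚ H) : bc K (s - t) = bc K s - bc K t :=
  LinearMap.baseChange_sub s t

theorem bc_zero : bc K (0 : Module.End ℚ H) = 0 := LinearMap.baseChange_zero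

theorem q_mul {p : Module.End ℚ H} (hp : p * p = p) : (1 - p) * p = 0 := by
  rw [sub_mul, one_mul, hp, sub_self]

theorem q_idem {p : Module.End ℚ H} (hp : p * p = p) : (1 - p) * (1 - p) = 1 - p := by
  rw [mul_sub, mul_one, q_mul hp, sub_zero]

end alg

variable {K : Type} [Field K] [CharZero K] {Γ : Type} [Group Γ] {X : AV}
  {E : X.H → X.H → ℚ} {ρ : Representation K Γ (K ⊗[ℚ] X.H)} {χ : Γ →* K}
  {p : Module.End ℚ X.H}

theorem InG.add {S T : Module.End K (K ⊗[ℚ] X.H)} (hS : InG X ρ χ S) (hT : InG X ρ χ T) :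
    InG X ρ χ (S + T) :=
  ⟨fun m φ hφ => Kills.add (hS.kills m φ hφ) (hT.kills m φ hφ), fun f hf => by
    rw [add_mul, map_add, hS.trace f hf, hT.trace f hf, add_zero]⟩

theorem InG.smul (c : K) {T : Module.End K (K ⊗[ℚ] X.H)} (hT : InG X ρ χ T) :
    InG X ρ χ (c • T) :=
  ⟨fun m φ hφ => Kills.smul c (hT.kills m φ hφ), fun f hf => by
    rw [smul_mul_assoc, map_smul, hT.trace f hf, smul_zero]⟩

theorem InG.zero : InG X ρ χ (0 : Module.End K (K ⊗[ℚ] X.H)) :=
  ⟨fun m φ hφ => Kills.zero, fun f hf => by rw [zero_mul, map_zero]⟩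

/-- The members of the span. -/
theorem InG.span {s : Set (Module.End K (K ⊗[ℚ] X.H))} (hs : ∀ T ∈ s, InG X ρ χ T)
    {T : Module.End K (K ⊗[ℚ] X.H)} (hT : T ∈ Submodule.span K s) : InG X ρ χ T := by
  induction hT using Submodule.span_induction with
  | mem T hT => exact hs T hT
  | zero => exact InG.zero
  | add S T _ _ h1 h2 => exact h1.add h2
  | smul c T _ h => exact h.smul c

/-- Self-adjoint endomorphisms. -/
theorem symm_bc {ω : (K ⊗[ℚ] X.H) →ₗ[K] (K ⊗[ℚ] X.H) →ₗ[K] K}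
    (hω : ∀ u v : X.H, ω (1 ⊗ₜ u) (1 ⊗ₜ v) = ((E u v : ℚ) : K)) {f : Module.End ℚ X.H}
    (hf : ∀ u v, E (f u) v = E u (f v)) (x y : K ⊗[ℚ] X.H) :
    ω (f.baseChange K x) y = ω x (f.baseChange K y) := by
  have g1 : ∀ (k : K) (h : X.H), k ⊗ₜ[ℚ] h = k • ((1 : K) ⊗ₜ[ℚ] h) := by
    intro k h
    rw [TensorProduct.smul_tmul', smul_eq_mul, mul_one]
  induction x with
  | zero => simp only [map_zero, LinearMap.zero_apply]
  | add x x' hx hx' => rw [map_add, map_add, LinearMap.add_apply, hx, hx', map_add,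
      LinearMap.add_apply]
  | tmul k h =>
    induction y with
    | zero => simp only [map_zero]
    | add y y' hy hy' => rw [map_add, hy, hy', map_add, map_add]
    | tmul k' h' =>
      have e0 : ∀ a b : X.H, ω (k • ((1 : K) ⊗ₜ[ℚ] a)) (k' • ((1 : K) ⊗ₜ[ℚ] b)) =
          k * (k' * ((E a b : ℚ) : K)) := by
        intro a b
        have e3 : ω (k • ((1 : K) ⊗ₜ[ℚ] a)) = k • ω ((1 : K) ⊗ₜ[ℚ] a) := map_smul _ _ _
        rw [e3, LinearMap.smul_apply, map_smul, hω, smul_eq_mul, smul_eq_mul]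
      have e1 := e0 (f h) h'
      have e2 := e0 h (f h')
      rw [LinearMap.baseChange_tmul, LinearMap.baseChange_tmul, g1 k, g1 k', g1 k h,
        g1 k' (f h'), e1, e2, hf]

theorem IsProj.hom' (hp : IsProj X E p) : IsHom X X (1 - p) := by
  obtain ⟨Ψ, hΨ⟩ := hp.hom
  refine ⟨LinearMap.id - Ψ, fun v => ?_⟩
  rw [LinearMap.sub_apply, hΨ, LinearMap.sub_apply, End.one_apply, map_sub]
  rfl

variable [Algebra K ℂ] [Algebra.IsAlgebraic K ℂ]

/-- The elements of `𝔫_A` kill the Tate tensors. -/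
theorem InNA.inG (hE : Pool.Agent.Y90.St.IsPolarization X.per E)
    (hρ : IsTateModule X.per E ρ χ) (hp : IsProj X E p)
    (hA : ∀ Y, IsKerFactor X p Y → GoodNC X ρ Y) {t : Module.End ℚ X.H} (ht : InNA X E p t) :
    InG X ρ χ (bc K t) := by
  refine ⟨fun m φ hφ => kills_gen hE hρ ht.comm ht.skew ht.trace ?_ hφ, fun f hf => ?_⟩
  · rintro Y' hY' ⟨i, hi, h0⟩
    refine hA Y' ⟨hY', (1 - p) ∘ₗ i, R915.IsHom.comp' hp.hom' hi, fun h1 => h0 ?_, ?_⟩
    · have h2 : t = t * (1 - p) := by rw [mul_sub, mul_one, ht.supp, sub_zero]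
      rw [h2, Module.End.mul_eq_comp, LinearMap.comp_assoc, h1, LinearMap.comp_zero]
    · rw [← LinearMap.comp_assoc, ← Module.End.mul_eq_comp, mul_sub, mul_one, hp.idem, sub_self,
        LinearMap.zero_comp]
  · have hfd : FiniteDimensional ℚ X.H := (AV.isAV X).1
    change LinearMap.trace K (K ⊗[ℚ] X.H) (bc K t * bc K f) = 0
    rw [← bc_mul]
    change LinearMap.trace K (K ⊗[ℚ] X.H) ((t * f).baseChange K) = 0
    rw [LinearMap.trace_baseChange, ht.trace f hf, map_zero]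

theorem inG_of_span (hE : Pool.Agent.Y90.St.IsPolarization X.per E)
    (hρ : IsTateModule X.per E ρ χ) (hp : IsProj X E p)
    (hA : ∀ Y, IsKerFactor X p Y → GoodNC X ρ Y) {T : Module.End K (K ⊗[ℚ] X.H)}
    (hT : T ∈ Submodule.span K (bc K '' {t | InNA X E p t})) : InG X ρ χ T := by
  refine InG.span ?_ hT
  rintro _ ⟨t, ht, rfl⟩
  exact ht.inG hE hρ hp hA

/-- The component of an element of the Lie algebra on `A` is skew. -/
theorem skew_comp (hE : Pool.Agent.Y90.St.IsPolarization X.per E)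
    (hρ : IsTateModule X.per E ρ χ) (hp : IsProj X E p) {T : Module.End K (K ⊗[ℚ] X.H)}
    (hT : ∀ m φ, IsTate ρ χ m φ → Kills T φ) {ω : (K ⊗[ℚ] X.H) →ₗ[K] (K ⊗[ℚ] X.H) →ₗ[K] K}
    (hω : ∀ u v : X.H, ω (1 ⊗ₜ u) (1 ⊗ₜ v) = ((E u v : ℚ) : K))
    (hωρ : ∀ g u v, ω (ρ g u) (ρ g v) = χ g * ω u v) (x y : K ⊗[ℚ] X.H) :
    ω ((T * bc K (1 - p) : Module.End K (K ⊗[ℚ] X.H)) x) y +
      ω x ((T * bc K (1 - p) : Module.End K (K ⊗[ℚ] X.H)) y) = 0 := by
  obtain ⟨B, hB⟩ := exists_BE ⟨ω, hω⟩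
  have hq : ∀ u v, E ((1 - p) u) v = E u ((1 - p) v) := by
    intro u v
    have h1 := hp.symm u v
    rw [← hB, ← hB] at h1 ⊢
    rw [LinearMap.sub_apply, LinearMap.sub_apply, map_sub, LinearMap.sub_apply, map_sub, h1]
    rfl
  have hqω : ∀ x y, ω (bc K (1 - p) x) y = ω x (bc K (1 - p) y) := symm_bc hω hq
  have hc : T * bc K (1 - p) = bc K (1 - p) * T := comm_of_kills hE hρ hT hp.hom'
  have hi : bc K (1 - p) * bc K (1 - p) = bc K (1 - p) := by rw [← bc_mul, q_idem hp.idem]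
  have h1 : ∀ x, (T * bc K (1 - p) : Module.End K (K ⊗[ℚ] X.H)) x =
      bc K (1 - p) (T (bc K (1 - p) x)) := by
    intro x
    conv_lhs => rw [← hi, ← mul_assoc, hc]
    rfl
  rw [h1, h1, hqω, ← hqω x]
  exact skew_of_kills hωρ hT _ _

/-- The component of an element of the derived Lie algebra on `A`. -/
theorem comp_mem (hE : Pool.Agent.Y90.St.IsPolarization X.per E)
    (hρ : IsTateModule X.per E ρ χ) (hp : IsProj X E p) {T : Module.End K (K ⊗[ℚ] X.H)}
    (hT : InG X ρ χ T) : T * bc K (1 - p) ∈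
      Submodule.span K (bc K '' {t | InNA X E p t}) := by
  have hfd : FiniteDimensional ℚ X.H := (AV.isAV X).1
  obtain ⟨ω, hω, hωρ⟩ := hρ.weil
  obtain ⟨B, hB⟩ := exists_BE ⟨ω, hω⟩
  have hsk := skew_comp hE hρ hp hT.kills hω hωρ
  have hcm : ∀ f : Module.End ℚ X.H, IsHom X X f → T * bc K f = bc K f * T := fun f hf =>
    comm_of_kills hE hρ hT.kills hf
  have htr : ∀ f : Module.End ℚ X.H, IsHom X X f →
      LinearMap.trace K (K ⊗[ℚ] X.H) (T * bc K f) = 0 := hT.trace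
  have hc1 : ∀ f : Module.End ℚ X.H, IsHom X X f →
      T * bc K (1 - p) * bc K f = bc K f * (T * bc K (1 - p)) := by
    intro f hf
    have h1 : (1 - p) * f = f * (1 - p) := by
      rw [sub_mul, mul_sub, one_mul, mul_one, hp.cent f hf]
    rw [mul_assoc, ← bc_mul, h1, bc_mul, ← mul_assoc, hcm f hf, mul_assoc]
  have hc2 : ∀ f : Module.End ℚ X.H, IsHom X X f →
      LinearMap.trace K (K ⊗[ℚ] X.H) (T * bc K (1 - p) * bc K f) = 0 := by
    intro f hf
    rw [mul_assoc, ← bc_mul]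
    exact htr _ (R915.IsHom.comp' hp.hom' hf)
  have hc3 : T * bc K (1 - p) * bc K p = 0 := by
    rw [mul_assoc, ← bc_mul, q_mul hp.idem, bc_zero, mul_zero]
  generalize T * bc K (1 - p) = T₁ at hsk hc1 hc2 hc3
  obtain ⟨m, c, l, h⟩ := exists_rec_end T₁
  rw [h]
  refine Submodule.sum_mem _ fun j _ => Submodule.smul_mem _ _
    (Submodule.subset_span ⟨_, ⟨fun f hf => ?_, fun u v => ?_, fun f hf => ?_, ?_⟩, rfl⟩)
  · have h1 := congrArg (cme (l j)) (hc1 f hf)
    exact (cme_mul (l j) T₁ f).symm.trans (h1.trans (cme_mul' (l j) T₁ f))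
  · have e1 := (cmp_om hω hB (l j) (T₁ (1 ⊗ₜ u)) v).1
    have e2 := (cmp_om hω hB (l j) (T₁ (1 ⊗ₜ v)) u).2
    rw [hB] at e1 e2
    change E (cmp (l j) (T₁ (1 ⊗ₜ u))) v + E u (cmp (l j) (T₁ (1 ⊗ₜ v))) = 0
    rw [← e1, ← e2, ← map_add, hsk, map_zero]
  · have h1 := trace_cme (l j) (T₁ * bc K f)
    rw [hc2 f hf, map_zero] at h1
    rw [← h1]
    exact congrArg (LinearMap.trace ℚ X.H) (cme_mul (l j) T₁ f).symm
  · have h1 := congrArg (cme (l j)) hc3
    rw [cme_zero] at h1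
    exact (cme_mul (l j) T₁ p).symm.trans h1

omit [Algebra K ℂ] [Algebra.IsAlgebraic K ℂ] in
theorem q_apply (x : K ⊗[ℚ] X.H) : bc K (1 - p) x = x - bc K p x := by
  have h1 := LinearMap.congr_fun (bc_sub (K := K) 1 p) x
  rw [bc_one] at h1
  exact h1

omit [Algebra K ℂ] [Algebra.IsAlgebraic K ℂ] in
theorem split {T : Module.End K (K ⊗[ℚ] X.H)} : T = T * bc K (1 - p) + T * bc K p := by
  refine LinearMap.ext fun x => ?_
  change T x = T (bc K (1 - p) x) + T (bc K p x)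
  rw [q_apply, map_sub, sub_add_cancel]

omit [Algebra K ℂ] [Algebra.IsAlgebraic K ℂ] in
theorem split' {T : Module.End K (K ⊗[ℚ] X.H)} :
    T * bc K p = T + (-1 : K) • (T * bc K (1 - p)) := by
  refine LinearMap.ext fun x => ?_
  change T (bc K p x) = T x + (-1 : K) • T (bc K (1 - p) x)
  rw [q_apply, map_sub]
  module

/-- **The decomposition of the derived Lie algebra.** -/
theorem lie_dec (hE : Pool.Agent.Y90.St.IsPolarization X.per E)
    (hρ : IsTateModule X.per E ρ χ) (hp : IsProj X E p)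
    (hA : ∀ Y, IsKerFactor X p Y → GoodNC X ρ Y) (T : Module.End K (K ⊗[ℚ] X.H)) :
    InG X ρ χ T ↔ T * bc K (1 - p) ∈
        Submodule.span K (bc K '' {t | InNA X E p t}) ∧
      InG X ρ χ (T * bc K p) := by
  constructor
  · intro hT
    have h1 := comp_mem hE hρ hp hT
    refine ⟨h1, ?_⟩
    have h2 := inG_of_span hE hρ hp hA h1
    rw [split']
    exact hT.add (h2.smul _)
  · rintro ⟨h1, h2⟩
    rw [split (p := p) (T := T)]
    exact (inG_of_span hE hρ hp hA h1).add h2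

end

end Pool.Agent.N183.U9
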