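import Mathlib
import Pool.Agent.N183.U8.D5
import Pool.Agent.Y90.Clo
import Pool.Agent.H204R3.SP.Lie

/-!
# Project RB (helper183): Tate tensors on `A × B`. Statements of the leaves.
-/

set_option autoImplicit false

namespace Pool.Agent.N183.U9

open Module Pool.Agent.Y90 Pool.Agent.N183.U8 TensorProduct
open Pool.Agent.H204R3.SP (Kills bil2)

/-- (FFT) First fundamental theorem. Let `L` be a Lie algebra generated by involutions, acting
completely reducibly with an invariant nondegenerate form `om`, such that each irreducible submodule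
`U` is self-dual, and contains an element of rank one of degree one. Then the invariant forms in an
even number of variables are generated by the invariant bilinear forms. -/
def S_FFT : Prop := ∀ (V : Type) [AddCommGroup V] [Module ℂ V] [FiniteDimensional ℂ V]
  (S : Set (End ℂ V)) (L : Submodule ℂ (End ℂ V)) (om : V →ₗ[ℂ] V →ₗ[ℂ] ℂ), Ctx S L om →
  (∀ U, IrE L U → ∃ b : V →ₗ[ℂ] V →ₗ[ℂ] ℂ,
    (∀ X ∈ L, ∀ u ∈ U, ∀ v ∈ U, b (X u) v + b u (X v) = 0) ∧ ∃ u ∈ U, ∃ v ∈ U, b u v ≠ 0) →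
  (∀ U, IrE L U → ∃ D ∈ S, ∃ ε : ℂ, (ε = 1 ∨ ε = -1) ∧ ∃ N ∈ L, (ε • D) * N = N ∧
    N * (ε • D) = -N ∧ finrank ℂ (U.map N) = 1) →
  ∀ (F : ∀ (κ : Type) [Finite κ], Submodule ℂ (MultilinearMap ℂ (fun _ : κ => V) ℂ)), Clo F →
  (∀ b : V →ₗ[ℂ] V →ₗ[ℂ] ℂ, (∀ X ∈ L, Skw b X) → bil2 b ∈ F (Fin 2)) →
  ∀ (m : ℕ) (φ : MultilinearMap ℂ (fun _ : Fin m × Fin 2 => V) ℂ), (∀ D ∈ S, Kills D φ) →
    φ ∈ F (Fin m × Fin 2)

/-- (ODD) -/
def S_ODD : Prop := ∀ (V : Type) [AddCommGroup V] [Module ℂ V] (κ : Type) [Fintype κ]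
  [DecidableEq κ] (D : End ℂ V) (φ : MultilinearMap ℂ (fun _ : κ => V) ℂ),
  D * D = 1 → Kills D φ → Odd (Fintype.card κ) → φ = 0

/-- (PAR) A form in the variables `α ⊕ β` which is for each value of the variables `β` a
combination of the forms in `P`. -/
def S_PAR : Prop := ∀ (K V : Type) [Field K] [AddCommGroup V] [Module K V] [FiniteDimensional K V]
  (α β : Type) [Fintype α] [Fintype β] [DecidableEq α] [DecidableEq β]
  (φ : MultilinearMap K (fun _ : α ⊕ β => V) K) (P : Set (MultilinearMap K (fun _ : α => V) K)),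
  (∀ w : β → V, ∃ F ∈ Submodule.span K P, ∀ v : α → V, φ (Sum.elim v w) = F v) →
  ∃ (r : ℕ) (F : Fin r → MultilinearMap K (fun _ : α => V) K)
    (ψ : Fin r → MultilinearMap K (fun _ : β => V) K), (∀ j, F j ∈ P) ∧
    (∀ v, φ v = ∑ j, F j (fun k => v (Sum.inl k)) * ψ j (fun k => v (Sum.inr k))) ∧
    (∀ (R : V ≃ₗ[K] V) (c d : K), d ≠ 0 → (∀ v, φ (fun k => R (v k)) = c * φ v) →
      (∀ F ∈ P, ∀ v, F (fun k => R (v k)) = d * F v) →
        ∀ j v, ψ j (fun k => R (v k)) = c / d * ψ j v) ∧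
    ∀ p : V →ₗ[K] V, (∀ v w, φ (Sum.elim v fun k => p (w k)) = φ (Sum.elim v w)) →
      ∀ j w, ψ j (fun k => p (w k)) = ψ j w

/-- (DESC) Descent of combinations from `ℂ` to `K`. -/
def S_DESC : Prop := ∀ (K : Type) [Field K] [CharZero K] [Algebra K ℂ] (H : Type) [AddCommGroup H]
  [Module ℚ H] [FiniteDimensional ℚ H] (κ : Type) [Fintype κ] [DecidableEq κ]
  (F : MultilinearMap K (fun _ : κ => K ⊗[ℚ] H) K)
  (R : Set (MultilinearMap ℚ (fun _ : κ => H) ℚ)),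
  (fun v : κ → H => algebraMap K ℂ (F fun k => 1 ⊗ₜ v k)) ∈
    Submodule.span ℂ {g : (κ → H) → ℂ | ∃ r ∈ R, g = fun v => ((r v : ℚ) : ℂ)} →
  F ∈ Submodule.span K {F' : MultilinearMap K (fun _ : κ => K ⊗[ℚ] H) K |
    ∃ r ∈ R, ∀ v : κ → H, F' (fun k => 1 ⊗ₜ v k) = ((r v : ℚ) : K)}

end Pool.Agent.N183.U9
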