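import Mathlib
import Pool.Agent.N183.U9.Stm

/-!
# Project RB (helper183): two more leaves. Statements.
-/

set_option autoImplicit false

namespace Pool.Agent.N183.U9

open Module Pool.Agent.Y90 Pool.Agent.N183.U8
open Pool.Agent.H204R3.SP (Kills bil2)

/-- (FFTQ) The first fundamental theorem for the forms on the image of a projection `Q` in the
commutant. -/
def S_FFTQ : Prop := ∀ (V : Type) [AddCommGroup V] [Module ℂ V] [FiniteDimensional ℂ V]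
  (S : Set (End ℂ V)) (L : Submodule ℂ (End ℂ V)) (om : V →ₗ[ℂ] V →ₗ[ℂ] ℂ), Ctx S L om →
  ∀ Q : End ℂ V, Q * Q = Q → (∀ D ∈ S, D * Q = Q * D) → (∀ u v, om (Q u) v = om u (Q v)) →
  (∀ U, IrE L U → (∀ u ∈ U, Q u = u) → ∃ b : V →ₗ[ℂ] V →ₗ[ℂ] ℂ,
    (∀ X ∈ L, ∀ u ∈ U, ∀ v ∈ U, b (X u) v + b u (X v) = 0) ∧ ∃ u ∈ U, ∃ v ∈ U, b u v ≠ 0) →
  (∀ U, IrE L U → (∀ u ∈ U, Q u = u) → ∃ D ∈ S, ∃ ε : ℂ, (ε = 1 ∨ ε = -1) ∧ ∃ N ∈ L,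
    (ε • D) * N = N ∧ N * (ε • D) = -N ∧ finrank ℂ (U.map N) = 1) →
  ∀ (F : ∀ (κ : Type) [Finite κ], Submodule ℂ (MultilinearMap ℂ (fun _ : κ => V) ℂ)), Clo F →
  (∀ b : V →ₗ[ℂ] V →ₗ[ℂ] ℂ, (∀ X ∈ L, Skw b X) → bil2 b ∈ F (Fin 2)) →
  ∀ (m : ℕ) (φ : MultilinearMap ℂ (fun _ : Fin m × Fin 2 => V) ℂ), (∀ D ∈ S, Kills D φ) →
    (∀ v, φ (fun k => Q (v k)) = φ v) → φ ∈ F (Fin m × Fin 2)

/-- (ALT) Antisymmetrization of a sum of products. -/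
def S_ALT : Prop := ∀ (K : Type) [Field K] [CharZero K] (H κ : Type) [Fintype κ] [DecidableEq κ]
  (φ : (κ → H) → K), (∀ (τ : Equiv.Perm κ) v,
    φ (fun k => v (τ k)) = ((Equiv.Perm.sign τ : ℤ) : K) * φ v) →
  ∀ (J : Type) [Fintype J] (k : J → ℕ) (β : J → Type) [∀ j, Fintype (β j)]
    [∀ j, DecidableEq (β j)] (σ : ∀ j, (Fin (k j) × Fin 2) ⊕ β j ≃ κ)
    (b : ∀ j, Fin (k j) → H → H → ℚ) (ψ : ∀ j, (β j → H) → K),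
  (∀ v, φ v = ∑ j, (∏ i, ((b j i (v (σ j (Sum.inl (i, 0)))) (v (σ j (Sum.inl (i, 1)))) : ℚ) : K)) *
    ψ j (fun x => v (σ j (Sum.inr x)))) →
  ∃ c : J → K, ∀ v, φ v = ∑ j, c j * ∑ τ : Equiv.Perm κ, ((Equiv.Perm.sign τ : ℤ) : K) *
    ((∏ i, ((b j i (v (τ (σ j (Sum.inl (i, 0))))) (v (τ (σ j (Sum.inl (i, 1))))) -
        b j i (v (τ (σ j (Sum.inl (i, 1))))) (v (τ (σ j (Sum.inl (i, 0))))) : ℚ) : K)) *
      ∑ π : Equiv.Perm (β j), ((Equiv.Perm.sign π : ℤ) : K) *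
        ψ j (fun x => v (τ (σ j (Sum.inr (π x))))))

end Pool.Agent.N183.U9
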