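import Mathlib
import Pool.Agent.N183.U9.K1
import Pool.Agent.N183.U9.Stm2

/-!
# Factors of type I and II: elements supported on them
-/

set_option linter.unusedSectionVars false
set_option linter.unusedVariables false

namespace Pool.Agent.N183.U9

open Matrix Module Pool.Agent.W437.HC Pool.Agent.W437.HD Pool.Agent.W548.Odd
open Pool.Agent.H204R3.SP Pool.Agent.H204R3.GP Pool.Agent.Y90 Pool.Agent.Y224.TS TensorProduct
open Pool.Agent.Y224.TS.St (IsHodgeTate IsTateModule)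
open Pool.Agent.W437.HP (cK cK_mul cK_one)
open Pool.Agent.R915 (VE mem_VE descent_gen commL_of IsFactor RealMax)
open Pool.Agent.N183.TS Pool.Agent.N183.U5 Pool.Agent.N183.U6 Pool.Agent.N183.U8

noncomputable section

section mat

variable {G : ℕ} {S : Set (Matrix (Fin G ⊕ Fin G) (Fin G ⊕ Fin G) ℂ)}

/-- The local conditions: an element of rank one and an invariant form. -/
structure LmI (S : Set (Matrix (Fin G ⊕ Fin G) (Fin G ⊕ Fin G) ℂ))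
    (U : Submodule ℂ (Fin G ⊕ Fin G → ℂ)) : Prop where
  rk : Rk1T S U
  sd : ∃ b : (Fin G ⊕ Fin G → ℂ) →ₗ[ℂ] (Fin G ⊕ Fin G → ℂ) →ₗ[ℂ] ℂ,
      (∀ X ∈ Y224.TS.LT S, ∀ u ∈ U, ∀ v ∈ U, b (X *ᵥ u) v + b u (X *ᵥ v) = 0) ∧
      ∃ u ∈ U, ∃ v ∈ U, b u v ≠ 0

variable {a : ℕ} {Z : Matrix (Fin G) (Fin G) ℂ} {Z' : Matrix (Fin a) (Fin a) ℂ}
  {E : Matrix (Fin G ⊕ Fin G) (Fin a ⊕ Fin a) ℚ} {F : Matrix (Fin a ⊕ Fin a) (Fin G ⊕ Fin G) ℚ}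

/-- Transport from a factor. -/
theorem LmI.of_fac (h : TD Z S) (hf : Fac Z Z' E F) (hZ : PM Z)
    {U : Submodule ℂ (Fin G ⊕ Fin G → ℂ)} (hU : IrS (LZ Z) U) (h0 : ∃ u ∈ U, ml F u ≠ 0)
    (k : LmI (SF E F S) (U.map (ml F))) : LmI S U := by
  refine ⟨k.rk.of_fac h hf hZ hU h0, ?_⟩
  obtain ⟨b, hb, _, ⟨u, hu, rfl⟩, _, ⟨v, hv, rfl⟩, h1⟩ := k.sd
  refine ⟨b.compl₁₂ (ml F) (ml F), fun X hX u hu v hv => ?_, u, hu, v, hv, h1⟩
  rw [LinearMap.compl₁₂_apply, LinearMap.compl₁₂_apply, actT hf h hX, actT hf h hX]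
  exact hb _ (compT hf h hX) _ ⟨u, hu, rfl⟩ _ ⟨v, hv, rfl⟩

end mat

section gal

variable {K : Type} [Field K] [CharZero K] [Algebra K ℂ] {Γ : Type} [Group Γ]

/-- The classes of simple abelian varieties of Albert type I and II. -/
def GoodI (X : AV) (ρ : Representation K Γ (K ⊗[ℚ] X.H)) (Y : AV) : Prop :=
  RealOdd Y ∨ ((∃ a, RealMax Y a) ∧ GalMultTwo X ρ Y)

variable [Algebra.IsAlgebraic K ℂ] {X : AV} {ρ : Representation K Γ (K ⊗[ℚ] X.H)} {χ : Γ →* K}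
  {G a : ℕ} {Z : Matrix (Fin G) (Fin G) ℂ} {Z' : Matrix (Fin a) (Fin a) ℂ}
  {E : Matrix (Fin G ⊕ Fin G) (Fin a ⊕ Fin a) ℚ} {F : Matrix (Fin a ⊕ Fin a) (Fin G ⊕ Fin G) ℚ}
  {b : Basis (Fin G ⊕ Fin G) ℚ X.H}

theorem GoodI.lm (h' : PM Z') (hZ : PM Z)
    (hC : Cht (X.per.comp b.equivFun.symm.toLinearMap.toAddMonoidHom) (JR Z))
    (hT : TD Z (SH X.per ρ χ b)) (hf : Fac Z Z' E F) (hs : R915.IsSimple (AVZ h'))
    (ha : 0 < a) (hi : IsHom (AVZ h') X (inc h' b E)) (k : GoodI X ρ (AVZ h'))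
    {U : Submodule ℂ (Fin a ⊕ Fin a → ℂ)} (hU : IrS (LZ Z') U) :
    LmI (SF E F (SH X.per ρ χ b)) U := by
  have hTD := tdF hf hT hZ h'
  have hs' := R915.simple_AVZ h' hs
  have h2 : ∀ U, IrS (LZ Z') U →
      (∀ (σ : ℂ ≃+* ℂ) (c : ℂ), ∃ u ∈ U, DS Z' σ *ᵥ u ≠ c • u) → 2 ≤ finrank ℂ U := by
    intro U hU hns
    refine two_le_of_ns hU fun c => ?_
    have h1 := hns (RingEquiv.refl ℂ) c
    rwa [DS_refl'] at h1
  have h3 : SDu Z' U → ∃ b' : (Fin a ⊕ Fin a → ℂ) →ₗ[ℂ] (Fin a ⊕ Fin a → ℂ) →ₗ[ℂ] ℂ,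
      (∀ T ∈ Y224.TS.LT (SF E F (SH X.per ρ χ b)), ∀ u ∈ U, ∀ v ∈ U,
        b' (T *ᵥ u) v + b' u (T *ᵥ v) = 0) ∧ ∃ u ∈ U, ∃ v ∈ U, b' u v ≠ 0 := by
    rintro ⟨b', h0, hb⟩
    exact ⟨b', (hTD.bil_on h' hU.2.1 hU.2.1 b').2 hb, h0⟩
  rcases k with k | ⟨⟨a0, ha0⟩, k⟩
  · obtain ⟨a0, ha0, -⟩ := id k
    have hsd := (ha0.rf h').sdu h' hs' ha hU
    have hns := R915.ns_of_sdu h' hsd
    exact ⟨(cls_all h' hTD hs ha (Or.inr (Or.inr (Or.inr k))) hU (h2 U hU hns)).1, h3 hsd⟩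
  · have hsd := fun U (hU : IrS (LZ Z') U) => (ha0.rf h').sdu h' hs' ha hU
    have hns := fun U (hU : IrS (LZ Z') U) => R915.ns_of_sdu h' (hsd U hU)
    exact ⟨GalMultTwo.cls' h' hZ hC hT hf hs' ha hi k hns hU (h2 U hU (hns U hU)),
      h3 (hsd U hU)⟩

end gal

section main

variable {G : ℕ} {Z : Matrix (Fin G) (Fin G) ℂ}
  {S : Set (Matrix (Fin G ⊕ Fin G) (Fin G ⊕ Fin G) ℂ)}
  {Q : Matrix (Fin G ⊕ Fin G) (Fin G ⊕ Fin G) ℚ}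

/-- The idempotent `Q` is in the centre of the endomorphism algebra, and the factors in its image
satisfy the local conditions. -/
structure QG (Z : Matrix (Fin G) (Fin G) ℂ)
    (S : Set (Matrix (Fin G ⊕ Fin G) (Fin G ⊕ Fin G) ℂ))
    (Q : Matrix (Fin G ⊕ Fin G) (Fin G ⊕ Fin G) ℚ) : Prop where
  hom : qm Q * DZ Z = DZ Z * qm Q
  idem : Q * Q = Q
  cent : ∀ R : Matrix (Fin G ⊕ Fin G) (Fin G ⊕ Fin G) ℚ, qm R * DZ Z = DZ Z * qm R → Q * R = R * Q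
  good : ∀ (a : ℕ) (Z' : Matrix (Fin a) (Fin a) ℂ)
      (E : Matrix (Fin G ⊕ Fin G) (Fin a ⊕ Fin a) ℚ)
      (F : Matrix (Fin a ⊕ Fin a) (Fin G ⊕ Fin G) ℚ), Fac Z Z' E F → PM Z' → IsSimpleAV Z' →
      0 < a → qm Q * (cK ℂ E * cK ℂ F) ≠ 0 → ∀ U, IrS (LZ Z') U → LmI (SF E F S) U

/-- The irreducible submodules of the image. -/
theorem QG.lm (k : QG Z S Q) (h : TD Z S) (hZ : PM Z) {U : Submodule ℂ (Fin G ⊕ Fin G → ℂ)}
    (hU : IrE (GG (Y224.TS.LT S)) U) (hQ : ∀ u ∈ U, qm Q *ᵥ u = u) : LmI S U := by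
  have hU' : IrS (LZ Z) U := (h.irS hZ).1 (irE_iff.1 hU)
  obtain ⟨a, Z', E, F, hf, h', hs', ha, h0⟩ := exists_fac hZ hU'.1
  refine LmI.of_fac h hf hZ hU' h0 (k.good a Z' E F hf h' hs' ha (fun h4 => ?_) _
    (hf.irr hU' h0))
  obtain ⟨u0, hu0, hne⟩ := h0
  apply hne
  have hEF : qm (E * F) = cK ℂ E * cK ℂ F := by
    rw [← cK_mul]
    rfl
  have h5 : qm Q * qm (E * F) = qm (E * F) * qm Q := by
    rw [← qm_mul', k.cent, qm_mul']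
    rw [hEF, Matrix.mul_assoc, hf.fd, ← Matrix.mul_assoc, ← hf.de, Matrix.mul_assoc]
  rw [hEF, h4] at h5
  rw [ml_apply]
  calc cK ℂ F *ᵥ u0 = cK ℂ F *ᵥ (qm Q *ᵥ u0) := by rw [hQ u0 hu0]
    _ = ((cK ℂ F * cK ℂ E) * cK ℂ F * qm Q) *ᵥ u0 := by
        rw [hf.fe', Matrix.one_mul, mulVec_mulVec]
    _ = (cK ℂ F * (cK ℂ E * cK ℂ F * qm Q)) *ᵥ u0 := by simp only [Matrix.mul_assoc]
    _ = 0 := by rw [← h5, Matrix.mul_zero, zero_mulVec]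

theorem comm_D (h : TD Z S) {R : Matrix (Fin G ⊕ Fin G) (Fin G ⊕ Fin G) ℚ}
    (hR : qm R * DZ Z = DZ Z * qm R) {D : Matrix (Fin G ⊕ Fin G) (Fin G ⊕ Fin G) ℂ} (hD : D ∈ S) :
    qm R * D = D * qm R :=
  (h.comm (qm R)).2 (fun X hX => (commL_of hR X hX).symm) D hD

/-- **The component of an involution on the image belongs to the Lie algebra.** -/
theorem QG.mem (k : QG Z S Q) (h : TD Z S) (hZ : PM Z)
    {D : Matrix (Fin G ⊕ Fin G) (Fin G ⊕ Fin G) ℂ} (hD : D ∈ S) : D * qm Q ∈ Y224.TS.LT S := by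
  have kc := ctx_of h
  have hQc : DC (ph (Fin G ⊕ Fin G) '' S) (ph _ (qm Q)) := dc_of h fun R hR => by
    rw [← qm_mul', k.cent R hR, qm_mul']
  have hdc : DC (ph (Fin G ⊕ Fin G) '' S) (ph _ (D * qm Q)) := dc_of h fun R hR => by
    rw [Matrix.mul_assoc, ← qm_mul', k.cent R hR, qm_mul', ← Matrix.mul_assoc, ← comm_D h hR hD,
      Matrix.mul_assoc]
  rw [← mem_GG]
  refine Pool.Agent.N183.U8.main_mem kc.SL kc.gen kc.cr leafA leafB leafC kc.sq kc.br hdc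
    fun U hU hU0 => ?_
  have hst : ∀ u ∈ U, qm Q *ᵥ u ∈ U := stab_of_comm kc.SL kc.cr hQc hU.2.1
  have hQQ : ∀ u : Fin G ⊕ Fin G → ℂ, qm Q *ᵥ (qm Q *ᵥ u) = qm Q *ᵥ u := fun u => by
    rw [mulVec_mulVec, ← qm_mul', k.idem]
  have hcomm := fun X hX => comm_L kc.gen (P := ph _ (qm Q)) (L := GG (Y224.TS.LT S)) (by
    rintro _ ⟨D, hD, rfl⟩
    rw [← map_mul, ← map_mul, comm_D h k.hom hD]) X hX
  have hQ1 : ∀ u ∈ U, qm Q *ᵥ u = u := by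
    have h1 : Stb (GG (Y224.TS.LT S)) (U ⊓ LinearMap.ker (ph _ (qm Q) - 1)) := by
      intro X hX u hu
      refine ⟨hU.2.1 X hX u hu.1, ?_⟩
      have h2 : ph _ (qm Q) u = u := by
        have h3 := LinearMap.mem_ker.1 hu.2
        rw [LinearMap.sub_apply] at h3
        exact sub_eq_zero.1 h3
      change ph _ (qm Q) (X u) - X u = 0
      have h3 := LinearMap.congr_fun (hcomm X hX) u
      rw [End.mul_apply, End.mul_apply, h2] at h3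
      rw [h3]
      exact sub_self _
    rcases hU.2.2 _ inf_le_left h1 with h2 | h2
    · exfalso
      obtain ⟨u, hu, hne⟩ := hU0
      apply hne
      have h3 : qm Q *ᵥ u ∈ U ⊓ LinearMap.ker (ph _ (qm Q) - 1) := by
        refine ⟨hst u hu, ?_⟩
        change ph _ (qm Q) (qm Q *ᵥ u) - qm Q *ᵥ u = 0
        exact sub_eq_zero.2 (hQQ u)
      rw [h2, Submodule.mem_bot] at h3
      change (D * qm Q) *ᵥ u = 0
      rw [← mulVec_mulVec, h3, mulVec_zero]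
    · intro u hu
      have h3 : u ∈ U ⊓ LinearMap.ker (ph _ (qm Q) - 1) := by
        rw [h2]
        exact hu
      have h4 := LinearMap.mem_ker.1 h3.2
      rw [LinearMap.sub_apply] at h4
      exact sub_eq_zero.1 h4
  obtain ⟨⟨D', hD', ε, hε, N, hN, hN1, hN2, hN3⟩, b, hb, h0⟩ := k.lm h hZ hU hQ1
  refine ⟨b, fun X hX u hu v hv => ?_, h0, ⟨_, mem_GG.2 hN, hN3⟩, fun u hu v hv => ?_⟩
  · obtain ⟨X, hX', rfl⟩ := exists_GG hX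
    exact hb X hX' u hu v hv
  · change b ((D * qm Q) *ᵥ u) v + b u ((D * qm Q) *ᵥ v) = 0
    rw [← mulVec_mulVec, ← mulVec_mulVec, hQ1 u hu, hQ1 v hv]
    exact hb D (LT_gen hD) u hu v hv

end main

end

end Pool.Agent.N183.U9
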