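import Mathlib
import Pool.Agent.N183.U9.RB1
import Pool.Agent.N183.U5.Div

/-!
# Products of the forms `E (f u) v`
-/

set_option linter.unusedSectionVars false
set_option linter.unusedVariables false

namespace Pool.Agent.N183.U9

open Matrix Module Pool.Agent.W437.HC Pool.Agent.W437.HD Pool.Agent.W548.Odd
open Pool.Agent.H204R3.SP Pool.Agent.H204R3.GP Pool.Agent.Y90 Pool.Agent.Y224.TS TensorProduct
open Pool.Agent.Y224.TS.St (IsHodgeTate IsTateModule)
open Pool.Agent.W437.HP (cK cK_mul cK_one)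
open Pool.Agent.R915 (VE mem_VE descent_gen commL_of IsFactor RealMax)
open Pool.Agent.N183.TS Pool.Agent.N183.U5 Pool.Agent.N183.U6 Pool.Agent.N183.U8

noncomputable section

section clo

/-- Products of the bilinear forms `E (f u) v`. -/
def PE (X : AV) (E : X.H → X.H → ℚ) (κ : Type) : Set (MultilinearMap ℚ (fun _ : κ => X.H) ℚ) :=
  {r | ∃ (M : Type) (_ : Fintype M) (e : M × Fin 2 ≃ κ) (f : M → Module.End ℚ X.H),
    (∀ i, IsHom X X (f i)) ∧ ∀ v, r v = ∏ i, E (f i (v (e (i, 0)))) (v (e (i, 1)))}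

/-- The functions attached to them. -/
def PF (X : AV) (E : X.H → X.H → ℚ) (κ : Type) : Set ((κ → X.H) → ℂ) :=
  {g | ∃ r ∈ PE X E κ, g = fun v => ((r v : ℚ) : ℂ)}

theorem PF_mul {X : AV} {E : X.H → X.H → ℚ} {κ κ' κ'' : Type} (e : κ ⊕ κ' ≃ κ'')
    {f : (κ → X.H) → ℂ} {f' : (κ' → X.H) → ℂ}
    (hf : f ∈ Submodule.span ℂ (PF X E κ)) (hf' : f' ∈ Submodule.span ℂ (PF X E κ')) :
    (fun v : κ'' → X.H => f (fun k => v (e (Sum.inl k))) *
      f' (fun k => v (e (Sum.inr k)))) ∈ Submodule.span ℂ (PF X E κ'') := by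
  induction hf using Submodule.span_induction with
  | mem f hf =>
    induction hf' using Submodule.span_induction with
    | mem f' hf' =>
      obtain ⟨r, ⟨M, iM, eM, R, hR, hr⟩, rfl⟩ := hf
      obtain ⟨r', ⟨M', iM', eM', R', hR', hr'⟩, rfl⟩ := hf'
      refine Submodule.subset_span ⟨(prd r r').domDomCongr e, ⟨M ⊕ M', inferInstance,
          ((Equiv.sumProdDistrib M M' (Fin 2)).trans (Equiv.sumCongr eM eM')).trans e,
          Sum.elim R R', ?_, fun v => ?_⟩, ?_⟩
      · rintro (i | i)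
        · exact hR i
        · exact hR' i
      · rw [MultilinearMap.domDomCongr_apply, prd_apply, hr, hr', Fintype.prod_sum_type]
        rfl
      · funext v
        rw [MultilinearMap.domDomCongr_apply, prd_apply, Rat.cast_mul]
    | zero =>
      have h1 : (fun v : κ'' → X.H => f (fun k => v (e (Sum.inl k))) *
        (0 : (κ' → X.H) → ℂ) (fun k => v (e (Sum.inr k)))) = 0 := by
        funext v
        simp
      rw [h1]
      exact Submodule.zero_mem _
    | add x y _ _ hx hy =>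
      have h1 := Submodule.add_mem _ hx hy
      refine Eq.mp ?_ h1
      congr 1
      funext v
      simp only [Pi.add_apply]
      ring
    | smul c x _ hx =>
      have h1 := Submodule.smul_mem _ c hx
      refine Eq.mp ?_ h1
      congr 1
      funext v
      simp only [Pi.smul_apply, smul_eq_mul]
      ring
  | zero =>
    have h1 : (fun v : κ'' → X.H => (0 : (κ → X.H) → ℂ) (fun k => v (e (Sum.inl k))) *
        f' (fun k => v (e (Sum.inr k)))) = 0 := by
      funext v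
      simp
    rw [h1]
    exact Submodule.zero_mem _
  | add x y _ _ hx hy =>
    have h1 := Submodule.add_mem _ hx hy
    refine Eq.mp ?_ h1
    congr 1
    funext v
    simp only [Pi.add_apply]
    ring
  | smul c x _ hx =>
    have h1 := Submodule.smul_mem _ c hx
    refine Eq.mp ?_ h1
    congr 1
    funext v
    simp only [Pi.smul_apply, smul_eq_mul]
    ring

variable {G : ℕ} {X : AV} {E : X.H → X.H → ℚ}

/-- Restriction of a form to the rational vectors. -/
def rsH (b : Basis (Fin G ⊕ Fin G) ℚ X.H) (κ : Type) :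
    MultilinearMap ℂ (fun _ : κ => Fin G ⊕ Fin G → ℂ) ℂ →ₗ[ℂ] ((κ → X.H) → ℂ) where
  toFun F := fun v => F (fun k => Pool.Agent.Y90.cv (b.equivFun (v k)))
  map_add' _ _ := rfl
  map_smul' _ _ := rfl

theorem rsH_apply (b : Basis (Fin G ⊕ Fin G) ℚ X.H) {κ : Type}
    (F : MultilinearMap ℂ (fun _ : κ => Fin G ⊕ Fin G → ℂ) ℂ) (v : κ → X.H) :
    rsH b κ F v = F (fun k => Pool.Agent.Y90.cv (b.equivFun (v k))) := rfl

/-- The combinations of products of bilinear forms. -/
def RE (E : X.H → X.H → ℚ) (b : Basis (Fin G ⊕ Fin G) ℚ X.H) (κ : Type) [Finite κ] :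
    Submodule ℂ (MultilinearMap ℂ (fun _ : κ => Fin G ⊕ Fin G → ℂ) ℂ) :=
  (Submodule.span ℂ (PF X E κ)).comap (rsH b κ)

theorem clo_RE (b : Basis (Fin G ⊕ Fin G) ℚ X.H) : Clo (RE E b) := by
  constructor
  · intro κ _ _ φ
    change rsH b κ φ ∈ Submodule.span ℂ (PF X E κ)
    have h1 : rsH b κ φ = φ (fun _ => 0) •
        (fun v : κ → X.H => ((MultilinearMap.constOfIsEmpty ℚ (fun _ : κ => X.H) (1 : ℚ) v : ℚ) :
          ℂ)) := by
      funext v
      rw [rsH_apply, Pi.smul_apply, smul_eq_mul, MultilinearMap.constOfIsEmpty_apply,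
        Function.const_apply, Rat.cast_one, mul_one]
      congr 1
      exact Subsingleton.elim _ _
    rw [h1]
    refine Submodule.smul_mem _ _ (Submodule.subset_span ⟨_, ⟨Empty, inferInstance,
      Equiv.equivOfIsEmpty _ _, fun i => i.elim, fun i => i.elim, fun v => ?_⟩, rfl⟩)
    simp
  · intro κ κ' κ'' _ _ _ e φ φ' ψ hφ hφ' hψ
    have h1 := PF_mul (E := E) e (f := rsH b κ φ) (f' := rsH b κ' φ') hφ hφ'
    change rsH b κ'' ψ ∈ Submodule.span ℂ (PF X E κ'')
    refine Eq.mp ?_ h1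
    congr 1
    funext v
    rw [rsH_apply, rsH_apply, rsH_apply, hψ]

/-- Every bilinear form comes from the symplectic form. -/
theorem exists_opr (β : (Fin G ⊕ Fin G → ℂ) →ₗ[ℂ] (Fin G ⊕ Fin G → ℂ) →ₗ[ℂ] ℂ) :
    ∃ P : End ℂ (Fin G ⊕ Fin G → ℂ), ∀ u v, β u v = om G (P u) v := by
  classical
  have hnd : (om G).SeparatingLeft := fun u hu => om_nd u hu
  have hinj : Function.Injective (om G) := by
    refine (injective_iff_map_eq_zero _).2 fun u hu => om_nd u fun v => ?_
    rw [hu, LinearMap.zero_apply]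
  have hd : finrank ℂ (Fin G ⊕ Fin G → ℂ) = finrank ℂ (Module.Dual ℂ (Fin G ⊕ Fin G → ℂ)) :=
    (Subspace.dual_finrank_eq).symm
  let e : (Fin G ⊕ Fin G → ℂ) ≃ₗ[ℂ] Module.Dual ℂ (Fin G ⊕ Fin G → ℂ) :=
    (om G).linearEquivOfInjective hinj hd
  refine ⟨e.symm.toLinearMap.comp β, fun u v => ?_⟩
  have h1 : om G (e.symm (β u)) = β u := e.apply_symm_apply (β u)
  change _ = om G (e.symm (β u)) v
  rw [h1]

/-- The Riemann form in coordinates. -/
theorem E_om (b : Basis (Fin G ⊕ Fin G) ℚ X.H) {B : X.H →ₗ[ℚ] X.H →ₗ[ℚ] ℚ}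
    (hB : ∀ u v, B u v = E u v) (hb : ∀ p q, E (b q) (b p) = Om G ℚ p q) (u v : X.H) :
    ((E u v : ℚ) : ℂ) = -om G (Pool.Agent.Y90.cv (b.equivFun u))
      (Pool.Agent.Y90.cv (b.equivFun v)) := by
  have h1 : ∀ p q, E (b p) (b q) = -Om G ℚ p q := by
    intro p q
    rw [hb]
    have h2 := congrFun (congrFun (Om_transpose (g := G) ℚ) p) q
    rw [Matrix.transpose_apply, Matrix.neg_apply] at h2
    exact h2
  have h2 : E u v = ∑ p, ∑ q, b.equivFun u p * (b.equivFun v q * -Om G ℚ p q) := by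
    rw [← hB]
    have e1 : B u v = ∑ p, b.equivFun u p * B (b p) v := by
      conv_lhs => rw [← b.sum_equivFun u]
      rw [map_sum, LinearMap.sum_apply]
      refine Finset.sum_congr rfl fun p _ => ?_
      rw [map_smul, LinearMap.smul_apply, smul_eq_mul]
    rw [e1]
    refine Finset.sum_congr rfl fun p _ => ?_
    have e2 : B (b p) v = ∑ q, b.equivFun v q * B (b p) (b q) := by
      conv_lhs => rw [← b.sum_equivFun v]
      rw [map_sum]
      refine Finset.sum_congr rfl fun q _ => ?_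
      rw [map_smul, smul_eq_mul]
    rw [e2, Finset.mul_sum]
    refine Finset.sum_congr rfl fun q _ => ?_
    rw [hB, h1]
  rw [h2, om_apply, dotProduct, ← Finset.sum_neg_distrib]
  push_cast
  refine Finset.sum_congr rfl fun p _ => ?_
  rw [mulVec, dotProduct, Finset.mul_sum, ← Finset.sum_neg_distrib]
  refine Finset.sum_congr rfl fun q _ => ?_
  have h3 : Om G ℂ p q = ((Om G ℚ p q : ℚ) : ℂ) := by
    rw [← U8.Om_qm]
    rfl
  rw [h3]
  change (_ : ℂ) = -((((b.equivFun u) p : ℚ) : ℂ) * (_ * (((b.equivFun v) q : ℚ) : ℂ)))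
  ring

variable {K : Type} [Field K] [CharZero K] [Algebra K ℂ] {Γ : Type} [Group Γ]
  {Z : Matrix (Fin G) (Fin G) ℂ} {S : Set (Matrix (Fin G ⊕ Fin G) (Fin G ⊕ Fin G) ℂ)}

/-- Invariant bilinear forms. -/
theorem bil_RE (b : Basis (Fin G ⊕ Fin G) ℚ X.H) {B : X.H →ₗ[ℚ] X.H →ₗ[ℚ] ℚ}
    (hB : ∀ u v, B u v = E u v) (hb : ∀ p q, E (b q) (b p) = Om G ℚ p q) (h : TD Z S)
    (hhom : ∀ R : Matrix (Fin G ⊕ Fin G) (Fin G ⊕ Fin G) ℚ, qm R * DZ Z = DZ Z * qm R →
      IsHom X X (Matrix.toLin b b R))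
    (β : (Fin G ⊕ Fin G → ℂ) →ₗ[ℂ] (Fin G ⊕ Fin G → ℂ) →ₗ[ℂ] ℂ)
    (hβ : ∀ Y ∈ GG (Y224.TS.LT S), Skw β Y) : bil2 β ∈ RE E b (Fin 2) := by
  obtain ⟨P, hP⟩ := exists_opr β
  have hPc : ∀ D ∈ ph (Fin G ⊕ Fin G) '' S, P * D = D * P := by
    rintro D hD
    have hk := ctx_of h
    have hDL := hk.SL D hD
    refine LinearMap.ext fun u => ?_
    rw [End.mul_apply, End.mul_apply]
    refine sub_eq_zero.1 (om_nd _ fun v => ?_)
    have h1 := hβ D hDL u v
    have h2 := hk.skw D hDL (P u) v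
    rw [hP, hP] at h1
    rw [map_sub, LinearMap.sub_apply]
    linear_combination h1 - h2
  obtain ⟨m, c, C, hC, hPC⟩ := comm_exp h hPc
  change rsH b (Fin 2) (bil2 β) ∈ Submodule.span ℂ (PF X E (Fin 2))
  have h1 : rsH b (Fin 2) (bil2 β) = ∑ j, (-c j) • (fun v : Fin 2 → X.H =>
      ((bil2 (B.comp (Matrix.toLin b b (C j))) v : ℚ) : ℂ)) := by
    funext v
    rw [rsH_apply, bil2_apply, hP, hPC, Finset.sum_apply]
    change om G ((∑ j, c j • qm (C j)) *ᵥ _) _ = _
    rw [Matrix.sum_mulVec, map_sum, LinearMap.sum_apply]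
    refine Finset.sum_congr rfl fun j _ => ?_
    rw [Pi.smul_apply, smul_eq_mul, bil2_apply, LinearMap.comp_apply, hB, E_om b hB hb,
      Matrix.smul_mulVec, map_smul, LinearMap.smul_apply, smul_eq_mul]
    have h2 : Pool.Agent.Y90.cv (b.equivFun (Matrix.toLin b b (C j) (v 0))) =
        qm (C j) *ᵥ Pool.Agent.Y90.cv (b.equivFun (v 0)) := by
      have h3 := LinearMap.toMatrix_mulVec_repr b b (Matrix.toLin b b (C j)) (v 0)
      rw [LinearMap.toMatrix_toLin] at h3
      change C j *ᵥ b.equivFun (v 0) = b.equivFun _ at h3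
      rw [← h3, cv_mulVec']
    rw [h2]
    ring
  rw [h1]
  refine Submodule.sum_mem _ fun j _ => Submodule.smul_mem _ _ (Submodule.subset_span
    ⟨_, ⟨Unit, inferInstance, Equiv.punitProd (Fin 2), fun _ => Matrix.toLin b b (C j),
      fun _ => hhom _ (hC j), fun v => ?_⟩, rfl⟩)
  rw [Fintype.prod_unique, bil2_apply, LinearMap.comp_apply, hB]
  rfl

end clo

end

end Pool.Agent.N183.U9
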