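import Mathlib
import Pool.Agent.N183.U9.RB2
import Pool.Agent.N558.RBDESC
import Pool.Agent.N945.RBPAR

/-!
# Partial evaluations of Tate forms
-/

set_option linter.unusedSectionVars false
set_option linter.unusedVariables false

namespace Pool.Agent.N183.U9

open Matrix Module Pool.Agent.W437.HC Pool.Agent.W437.HD Pool.Agent.W548.Odd
open Pool.Agent.H204R3.SP Pool.Agent.H204R3.GP Pool.Agent.Y90 Pool.Agent.Y224.TS TensorProduct
open Pool.Agent.Y224.TS.St (IsHodgeTate IsTateModule)
open Pool.Agent.W437.HP (cK cK_mul cK_one)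
open Pool.Agent.R915 (VE mem_VE descent_gen commL_of IsFactor RealMax)
open Pool.Agent.N183.TS Pool.Agent.N183.U5 Pool.Agent.N183.U6 Pool.Agent.N183.U8

noncomputable section

section fix

variable {R V : Type} [Field R] [AddCommGroup V] [Module R V] {α β κ : Type}

/-- Partial evaluation. -/
def fixR (f : MultilinearMap R (fun _ : α ⊕ β => V) R) (w : β → V) :
    MultilinearMap R (fun _ : α => V) R := (f.domDomCongr (Equiv.sumComm α β)).currySum w

theorem fixR_apply (f : MultilinearMap R (fun _ : α ⊕ β => V) R) (w : β → V) (v : α → V) :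
    fixR f w v = f (Sum.elim v w) := by
  unfold fixR
  rw [MultilinearMap.currySum_apply, MultilinearMap.domDomCongr_apply]
  congr 1
  funext i
  rcases i with i | i <;> rfl

theorem kills_ddc [Fintype κ] [DecidableEq κ] [Fintype α] [DecidableEq α] (e : κ ≃ α)
    {T : Module.End R V} {f : MultilinearMap R (fun _ : κ => V) R} (h : Kills T f) :
    Kills T (f.domDomCongr e) := by
  intro v
  rw [← h fun k => v (e k), ← Equiv.sum_comp e]
  refine Finset.sum_congr rfl fun k _ => ?_
  rw [MultilinearMap.domDomCongr_apply]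
  congr 1
  funext l
  by_cases hl : l = k
  · subst hl
    rw [Function.update_self, Function.update_self]
  · rw [Function.update_of_ne hl, Function.update_of_ne (fun h => hl (e.injective h))]

/-- The form `f (A v, B w)`. -/
def cmpAB (f : MultilinearMap R (fun _ : κ => V) R) (e : α ⊕ β ≃ κ) (A C : Module.End R V) :
    MultilinearMap R (fun _ : α ⊕ β => V) R :=
  (f.domDomCongr e.symm).compLinearMap (Sum.elim (fun _ => A) (fun _ => C))

theorem cmpAB_apply (f : MultilinearMap R (fun _ : κ => V) R) (e : α ⊕ β ≃ κ)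
    (A C : Module.End R V) (x : α ⊕ β → V) :
    cmpAB f e A C x = f (fun k => Sum.elim (fun a => A (x (Sum.inl a)))
      (fun a => C (x (Sum.inr a))) (e.symm k)) := by
  unfold cmpAB
  rw [MultilinearMap.compLinearMap_apply, MultilinearMap.domDomCongr_apply]
  congr 1
  funext k
  rcases e.symm k with i | i <;> rfl

/-- Partial evaluation preserves the equations of an element supported on the image of `Q`. -/
theorem kills_fix [Fintype κ] [DecidableEq κ] [Fintype α] [DecidableEq α] [Fintype β]
    [DecidableEq β] (e : α ⊕ β ≃ κ) {D A C : Module.End R V}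
    {f : MultilinearMap R (fun _ : κ => V) R} (h : Kills (D * A) f) (hAA : A * A = A)
    (hAC : A * C = 0) (hDA : D * A = A * D) (w : β → V) : Kills D (fixR (cmpAB f e A C) w) := by
  have h1 := kills_ddc e.symm h
  intro v
  have h2 := h1 (Sum.elim (fun a => A (v a)) (fun a => C (w a)))
  rw [Fintype.sum_sum_type] at h2
  have h3 : ∑ x : β, (f.domDomCongr e.symm) (Function.update
      (Sum.elim (fun a => A (v a)) (fun a => C (w a))) (Sum.inr x)
      ((D * A) (Sum.elim (fun a => A (v a)) (fun a => C (w a)) (Sum.inr x)))) = 0 := by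
    refine Finset.sum_eq_zero fun x _ => ?_
    have h4 : (D * A) (Sum.elim (fun a => A (v a)) (fun a => C (w a)) (Sum.inr x)) = 0 := by
      change D (A (C (w x))) = 0
      have h5 := LinearMap.congr_fun hAC (w x)
      rw [End.mul_apply, LinearMap.zero_apply] at h5
      rw [h5, map_zero]
    rw [h4]
    exact MultilinearMap.map_update_zero _ _ _
  rw [h3, add_zero] at h2
  rw [← h2]
  refine Finset.sum_congr rfl fun a _ => ?_
  rw [fixR_apply]
  unfold cmpAB
  rw [MultilinearMap.compLinearMap_apply]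
  congr 1
  funext i
  rcases i with i | i
  · by_cases hi : i = a
    · subst hi
      rw [Function.update_self]
      change A (Function.update v i (D (v i)) i) = D (A (A (v i)))
      rw [Function.update_self]
      have h5 := LinearMap.congr_fun hAA (v i)
      have h6 := LinearMap.congr_fun hDA (v i)
      rw [End.mul_apply] at h5
      rw [End.mul_apply, End.mul_apply] at h6
      rw [h5, h6]
    · rw [Function.update_of_ne (fun h => hi (Sum.inl.inj h))]
      change A (Function.update v a (D (v a)) i) = A (v i)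
      rw [Function.update_of_ne hi]
  · rw [Function.update_of_ne (by simp)]
    rfl

end fix

section inv

variable {G : ℕ} {Z : Matrix (Fin G) (Fin G) ℂ}
  {S : Set (Matrix (Fin G ⊕ Fin G) (Fin G ⊕ Fin G) ℂ)}
  {Q : Matrix (Fin G ⊕ Fin G) (Fin G ⊕ Fin G) ℚ} {X : AV} {E : X.H → X.H → ℚ}

/-- Forms in a finite set of variables, on the image of `Q`. -/
theorem inv_RE (hF : S_FFTQ) (b : Basis (Fin G ⊕ Fin G) ℚ X.H) {B : X.H →ₗ[ℚ] X.H →ₗ[ℚ] ℚ}
    (hB : ∀ u v, B u v = E u v) (hb : ∀ p q, E (b q) (b p) = Om G ℚ p q) (h : TD Z S)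
    (hZ : PM Z)
    (hhom : ∀ R : Matrix (Fin G ⊕ Fin G) (Fin G ⊕ Fin G) ℚ, qm R * DZ Z = DZ Z * qm R →
      IsHom X X (Matrix.toLin b b R)) (k : QG Z S Q)
    (hsa : ∀ u v, om G (qm Q *ᵥ u) v = om G u (qm Q *ᵥ v))
    {α : Type} [Fintype α] [DecidableEq α]
    (φ : MultilinearMap ℂ (fun _ : α => Fin G ⊕ Fin G → ℂ) ℂ)
    (hφ : ∀ D ∈ S, Kills (ph (Fin G ⊕ Fin G) D) φ) (hQ : ∀ v, φ (fun k => qm Q *ᵥ (v k)) = φ v) :
    φ ∈ RE E b α := by
  rcases Nat.even_or_odd (Fintype.card α) with he | ho
  · obtain ⟨m, hm⟩ := he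
    have e : α ≃ Fin m × Fin 2 := Fintype.equivOfCardEq (by
      rw [Fintype.card_prod, Fintype.card_fin, Fintype.card_fin, hm]; ring)
    have h1 := hF _ (ph (Fin G ⊕ Fin G) '' S) (GG (Y224.TS.LT S)) (om G) (ctx_of h)
      (ph _ (qm Q)) (by rw [← map_mul, ← qm_mul', k.idem]) (by
        rintro _ ⟨D, hD, rfl⟩
        rw [← map_mul, ← map_mul, comm_D h k.hom hD]) hsa (fun U hU hU1 => by
          obtain ⟨b', hb', h0⟩ := (k.lm h hZ hU hU1).sd
          refine ⟨b', fun Y hY u hu v hv => ?_, h0⟩
          obtain ⟨Y, hY', rfl⟩ := exists_GG hY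
          exact hb' Y hY' u hu v hv) (fun U hU hU1 => by
          obtain ⟨D', hD', ε, hε, N, hN, hN1, hN2, hN3⟩ := (k.lm h hZ hU hU1).rk
          refine ⟨_, ⟨D', hD', rfl⟩, ε, hε, _, mem_GG.2 hN, ?_, ?_, hN3⟩
          · rw [← map_smul, ← map_mul, hN1]
          · rw [← map_smul, ← map_mul, hN2, map_neg]) (RE E b) (clo_RE b)
      (bil_RE b hB hb h hhom) m (φ.domDomCongr e) (fun D hD => by
        obtain ⟨D, hD, rfl⟩ := hD
        exact kills_ddc e (hφ D hD)) (fun v => by
        rw [MultilinearMap.domDomCongr_apply, MultilinearMap.domDomCongr_apply]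
        exact hQ _)
    refine (clo_RE b).reindex e.symm h1 φ fun v => ?_
    rw [MultilinearMap.domDomCongr_apply]
    congr 1
    funext a
    rw [Equiv.symm_apply_apply]
  · obtain ⟨D, hD, -⟩ := h.ex (RingEquiv.refl ℂ)
    have h1 := Pool.Agent.N558.RBDESC.ODD _ α (ph (Fin G ⊕ Fin G) D) φ
      (by rw [← map_mul, h.sq D hD, map_one]) (hφ D hD) ho
    rw [h1]
    exact Submodule.zero_mem _

end inv

end

end Pool.Agent.N183.U9
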