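import Mathlib
import Pool.Agent.N183.U9.RB3

/-!
# Partial evaluations of Tate forms are combinations of products
-/

set_option linter.unusedSectionVars false
set_option linter.unusedVariables false

namespace Pool.Agent.N183.U9

open Matrix Module Pool.Agent.W437.HC Pool.Agent.W437.HD Pool.Agent.W548.Odd
open Pool.Agent.H204R3.SP Pool.Agent.H204R3.GP Pool.Agent.Y90 Pool.Agent.Y224.TS TensorProduct
open Pool.Agent.Y224.TS.St (IsHodgeTate IsTateModule)
open Pool.Agent.W437.HP (cK cK_mul cK_one)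
open Pool.Agent.R915 (VE mem_VE descent_gen commL_of IsFactor RealMax)
open Pool.Agent.N183.TS Pool.Agent.N183.U5 Pool.Agent.N183.U6 Pool.Agent.N183.U8

noncomputable section

section coord

variable {X : AV} {E : X.H → X.H → ℚ} {G : ℕ}

theorem qm_cv (b : Basis (Fin G ⊕ Fin G) ℚ X.H) (t : Module.End ℚ X.H) (u : X.H) :
    qm (LinearMap.toMatrix b b t) *ᵥ Pool.Agent.Y90.cv (b.equivFun u) =
      Pool.Agent.Y90.cv (b.equivFun (t u)) := by
  have h3 := LinearMap.toMatrix_mulVec_repr b b t u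
  change LinearMap.toMatrix b b t *ᵥ b.equivFun u = b.equivFun _ at h3
  rw [← h3, cv_mulVec']

/-- Self-adjoint endomorphisms in coordinates. -/
theorem sa_om (b : Basis (Fin G ⊕ Fin G) ℚ X.H) {B : X.H →ₗ[ℚ] X.H →ₗ[ℚ] ℚ}
    (hB : ∀ u v, B u v = E u v) (hb : ∀ p q, E (b q) (b p) = Om G ℚ p q)
    {t : Module.End ℚ X.H} (ht : ∀ u v, E (t u) v = E u (t v)) (u v : Fin G ⊕ Fin G → ℂ) :
    om G (qm (LinearMap.toMatrix b b t) *ᵥ u) v = om G u (qm (LinearMap.toMatrix b b t) *ᵥ v) := by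
  set T : End ℂ (Fin G ⊕ Fin G → ℂ) := ph _ (qm (LinearMap.toMatrix b b t)) with hT
  have h0 : (om G).comp T = (om G).compl₂ T := by
    refine (Pi.basisFun ℂ _).ext fun i => (Pi.basisFun ℂ _).ext fun j => ?_
    rw [LinearMap.comp_apply, LinearMap.compl₂_apply, Pi.basisFun_apply, Pi.basisFun_apply]
    have h1 : ∀ i, (Pi.single i 1 : Fin G ⊕ Fin G → ℂ) =
        Pool.Agent.Y90.cv (b.equivFun (b i)) := by
      intro i
      rw [← single_cv]
      congr 1
      funext j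
      rw [Basis.equivFun_self]
      by_cases h : i = j
      · subst h
        simp
      · rw [if_neg h, Pi.single_eq_of_ne (Ne.symm h)]
    rw [h1, h1]
    change om G (qm (LinearMap.toMatrix b b t) *ᵥ _) _ =
      om G _ (qm (LinearMap.toMatrix b b t) *ᵥ _)
    rw [qm_cv, qm_cv]
    have h2 := E_om b hB hb (t (b i)) (b j)
    have h3 := E_om b hB hb (b i) (t (b j))
    rw [ht] at h2
    exact neg_injective (h2.symm.trans h3)
  exact LinearMap.congr_fun (LinearMap.congr_fun h0 u) v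

end coord

variable {K : Type} [Field K] [CharZero K] [Algebra K ℂ] [Algebra.IsAlgebraic K ℂ]
  {Γ : Type} [Group Γ] {X : AV} {E : X.H → X.H → ℚ} {ρ : Representation K Γ (K ⊗[ℚ] X.H)}
  {χ : Γ →* K}

/-- The complement `q = 1 - p` of the projection onto `B`: the simple factors of its image are
of type I or II. -/
structure IsCompl' (X : AV) (E : X.H → X.H → ℚ) (ρ : Representation K Γ (K ⊗[ℚ] X.H))
    (p : Module.End ℚ X.H) : Prop where
  hom : IsHom X X p
  idem : p * p = p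
  cent : ∀ f : Module.End ℚ X.H, IsHom X X f → p * f = f * p
  adj : ∀ u v, E (p u) v = E u (p v)
  good : ∀ Y' : AV, IsFactor Y' X → (∃ i : Y'.H →ₗ[ℚ] X.H, IsHom Y' X i ∧ p ∘ₗ i ≠ i) →
    GoodI X ρ Y'

theorem isHom_one : IsHom X X (1 : Module.End ℚ X.H) := ⟨1, fun _ => rfl⟩

theorem isHom_sub {f g : Module.End ℚ X.H} (hf : IsHom X X f) (hg : IsHom X X g) :
    IsHom X X (f - g) := by
  obtain ⟨Ψ, h⟩ := hf
  obtain ⟨Ψ', h'⟩ := hg
  refine ⟨Ψ - Ψ', fun v => ?_⟩
  rw [LinearMap.sub_apply, h, h', LinearMap.sub_apply, map_sub]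

theorem IsCompl'.qg {p : Module.End ℚ X.H} (k : IsCompl' X E ρ p) {G : ℕ}
    {Z : Matrix (Fin G) (Fin G) ℂ} (b : Basis (Fin G ⊕ Fin G) ℚ X.H) (hZ : PM Z)
    (hC : Cht (X.per.comp b.equivFun.symm.toLinearMap.toAddMonoidHom) (JR Z))
    (hT : TD Z (SH X.per ρ χ b)) :
    QG Z (SH X.per ρ χ b) (LinearMap.toMatrix b b (1 - p)) := by
  have hmat : ∀ R : Matrix (Fin G ⊕ Fin G) (Fin G ⊕ Fin G) ℚ,
      LinearMap.toMatrix b b (Matrix.toLin b b R) = R := fun R => LinearMap.toMatrix_toLin _ _ _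
  have hhom : ∀ R : Matrix (Fin G ⊕ Fin G) (Fin G ⊕ Fin G) ℚ, qm R * DZ Z = DZ Z * qm R →
      IsHom X X (Matrix.toLin b b R) := fun R hR => (hom_DZ b hC _).2 (by rw [hmat]; exact hR)
  refine ⟨(hom_DZ b hC _).1 (isHom_sub isHom_one k.hom), ?_, fun R hR => ?_, ?_⟩
  · rw [← LinearMap.toMatrix_mul]
    congr 1
    rw [mul_sub, sub_mul, sub_mul, k.idem, mul_one, one_mul, mul_one, sub_self, sub_zero]
  · have h1 := k.cent _ (hhom R hR)
    have h2 : (1 - p) * Matrix.toLin b b R = Matrix.toLin b b R * (1 - p) := by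
      rw [sub_mul, mul_sub, h1, one_mul, mul_one]
    have h3 := congrArg (LinearMap.toMatrix b b) h2
    rw [LinearMap.toMatrix_mul, LinearMap.toMatrix_mul, hmat] at h3
    exact h3
  · intro a Z' E' F' hf h' hs ha hne U hU
    obtain ⟨hi, hfa, p', hp, hpv⟩ := fac_hom b hC h' hf hs ha
    refine GoodI.lm h' hZ hC hT hf (R915.simple_of a h' hs ha) ha hi
      (k.good _ hfa ⟨_, hi, fun h0 => hne ?_⟩) hU
    have h4 : LinearMap.toMatrix b b (1 - p) * E' = 0 := by
      ext r c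
      have h5 : (1 - p) (inc h' b E' (Pi.single c 1)) = 0 := by
        have h6 := LinearMap.congr_fun h0 (Pi.single c 1)
        rw [LinearMap.comp_apply] at h6
        rw [LinearMap.sub_apply, h6, End.one_apply, sub_self]
      have h6 : b.equivFun ((1 - p) (inc h' b E' (Pi.single c 1))) =
          LinearMap.toMatrix b b (1 - p) *ᵥ (E' *ᵥ (Pi.single c 1)) := by
        have h7 := LinearMap.toMatrix_mulVec_repr b b (1 - p) (inc h' b E' (Pi.single c 1))
        change LinearMap.toMatrix b b (1 - p) *ᵥ b.equivFun (inc h' b E' (Pi.single c 1)) =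
          b.equivFun _ at h7
        rw [← h7]
        congr 1
        change b.equivFun (b.equivFun.symm (Matrix.mulVecLin E' (Pi.single c 1))) = _
        rw [LinearEquiv.apply_symm_apply]
        rfl
      rw [h5, map_zero, mulVec_mulVec, mulVec_single_one] at h6
      exact (congrFun h6 r).symm
    have h5 : qm (LinearMap.toMatrix b b (1 - p)) * cK ℂ E' = 0 := by
      have h6 : cK ℂ (LinearMap.toMatrix b b (1 - p) * E') =
          cK ℂ (LinearMap.toMatrix b b (1 - p)) * cK ℂ E' := by rw [cK_mul]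
      have h7 : cK ℂ (LinearMap.toMatrix b b (1 - p) * E') = 0 := by
        rw [h4]
        ext i j
        simp [cK]
      rw [h7] at h6
      exact h6.symm
    rw [← Matrix.mul_assoc, h5, Matrix.zero_mul]

/-- **The partial evaluations of Tate forms on the image of `1 - p` are combinations of products
of the forms `E (f u) v`.** -/
theorem span_fix (hF : S_FFTQ) (hE : Pool.Agent.Y90.St.IsPolarization X.per E)
    (hρ : IsTateModule X.per E ρ χ) {p : Module.End ℚ X.H} (k : IsCompl' X E ρ p)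
    {m : ℕ} {φ : MultilinearMap K (fun _ : Fin m × Fin 2 => K ⊗[ℚ] X.H) K}
    (hφ : IsTate ρ χ m φ) {α β : Type} [Fintype α] [DecidableEq α] [Fintype β] [DecidableEq β]
    (e : α ⊕ β ≃ Fin m × Fin 2) (w : β → K ⊗[ℚ] X.H) :
    fixR (cmpAB φ e ((1 - p).baseChange K) (p.baseChange K)) w ∈
      Submodule.span K {F' : MultilinearMap K (fun _ : α => K ⊗[ℚ] X.H) K |
        ∃ r ∈ PE X E α, ∀ v : α → X.H, F' (fun k => 1 ⊗ₜ v k) = ((r v : ℚ) : K)} := by
  classical
  have hfd : FiniteDimensional ℚ X.H := (AV.isAV X).1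
  obtain ⟨G, Z, hZ, b, hC, hb⟩ := exists_ppav' (AV.isAV X) hE
  have hTD : TD Z (SH X.per ρ χ b) := td_of b hb hC hρ
  obtain ⟨B, hB⟩ := exists_BE (K := K) (by
    obtain ⟨ω, hω, -⟩ := hρ.weil
    exact ⟨ω, hω⟩)
  have hmat : ∀ R : Matrix (Fin G ⊕ Fin G) (Fin G ⊕ Fin G) ℚ,
      LinearMap.toMatrix b b (Matrix.toLin b b R) = R := fun R => LinearMap.toMatrix_toLin _ _ _
  have hhom : ∀ R : Matrix (Fin G ⊕ Fin G) (Fin G ⊕ Fin G) ℚ, qm R * DZ Z = DZ Z * qm R →
      IsHom X X (Matrix.toLin b b R) := fun R hR => (hom_DZ b hC _).2 (by rw [hmat]; exact hR)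
  set Q := LinearMap.toMatrix b b (1 - p) with hQ
  set P := LinearMap.toMatrix b b p with hP
  have hqg : QG Z (SH X.per ρ χ b) Q := k.qg b hZ hC hTD
  have hsa : ∀ u v, om G (qm Q *ᵥ u) v = om G u (qm Q *ᵥ v) := sa_om b hB hb fun u v => by
    rw [← hB, ← hB, LinearMap.sub_apply, LinearMap.sub_apply, map_sub, map_sub,
      LinearMap.sub_apply, hB, hB, hB, hB, k.adj]
    rfl
  have hQQ : ph (Fin G ⊕ Fin G) (qm Q) * ph _ (qm Q) = ph _ (qm Q) := by
    rw [← map_mul, ← qm_mul', hqg.idem]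
  have hQP : ph (Fin G ⊕ Fin G) (qm Q) * ph _ (qm P) = 0 := by
    rw [← map_mul, ← qm_mul', hQ, hP, ← LinearMap.toMatrix_mul, sub_mul, k.idem, one_mul, sub_self,
      map_zero]
    have h7 : qm (0 : Matrix (Fin G ⊕ Fin G) (Fin G ⊕ Fin G) ℚ) = 0 := by
      ext i j
      simp [qm]
    rw [h7, map_zero]
  refine Pool.Agent.N558.RBDESC.DESC K X.H α _ (PE X E α) ?_
  have h1 := inv_RE hF b hB hb hTD hZ hhom hqg hsa
    (fixR (cmpAB (FC b φ) e (ph _ (qm Q)) (ph _ (qm P))) fun k => eY K b ((1 : ℂ) ⊗ₜ[K] w k))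
    (fun D hD => kills_fix e (by
      rw [← map_mul]
      exact kills_LT (FC_kills b φ hφ) (hqg.mem hTD hZ hD)) hQQ hQP (by
      rw [← map_mul, ← map_mul, comm_D hTD hqg.hom hD]) _) (fun v => by
      rw [fixR_apply, fixR_apply, cmpAB_apply, cmpAB_apply]
      congr 1
      funext x
      rcases e.symm x with i | i
      · exact LinearMap.congr_fun hQQ (v i)
      · rfl)
  refine Eq.mp ?_ h1
  change (rsH b α _ ∈ Submodule.span ℂ (PF X E α)) = _
  congr 1
  funext v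
  rw [rsH_apply, fixR_apply, fixR_apply, cmpAB_apply, cmpAB_apply, ← bcm_one (Ω := ℂ) (bV K b) φ,
    ← FC_e b φ]
  congr 1
  funext x
  rcases e.symm x with i | i
  · change qm Q *ᵥ (Pool.Agent.Y90.cv (b.equivFun (v i))) =
      eY K b ((1 : ℂ) ⊗ₜ[K] ((1 - p).baseChange K ((1 : K) ⊗ₜ[ℚ] v i)))
    rw [LinearMap.baseChange_tmul, eY_rat, qm_cv]
  · change qm P *ᵥ (eY K b ((1 : ℂ) ⊗ₜ[K] w i)) = eY K b ((1 : ℂ) ⊗ₜ[K] (p.baseChange K (w i)))
    rw [hP, ← mt_bc2 (K := K) b p, mt_mulVec, LinearMap.baseChange_tmul]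

end

end Pool.Agent.N183.U9
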