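import Mathlib
import Pool.Agent.N183.U9.RB4
import Pool.Agent.N413.RBFFTQ
import Pool.Agent.N570.RBALT

/-!
# Decomposition of the partial evaluations
-/

set_option linter.unusedSectionVars false
set_option linter.unusedVariables false

namespace Pool.Agent.N183.U9

open Matrix Module Pool.Agent.W437.HC Pool.Agent.W437.HD Pool.Agent.W548.Odd
open Pool.Agent.H204R3.SP Pool.Agent.H204R3.GP Pool.Agent.Y90 Pool.Agent.Y224.TS TensorProduct
open Pool.Agent.Y224.TS.St (IsHodgeTate IsTateModule)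
open Pool.Agent.W437.HP (cK cK_mul cK_one)
open Pool.Agent.R915 (VE mem_VE descent_gen commL_of IsFactor RealMax)
open Pool.Agent.N183.TS Pool.Agent.N183.U5 Pool.Agent.N183.U6 Pool.Agent.N183.U8
open Pool.Agent.H204R3.CM (prodMap)

noncomputable section

/-- Multilinear forms which agree on rational vectors are equal. -/
theorem ext_rat {K : Type} [Field K] [CharZero K] {H : Type} [AddCommGroup H] [Module ℚ H]
    [FiniteDimensional ℚ H] {α : Type} [Finite α]
    {F F' : MultilinearMap K (fun _ : α => K ⊗[ℚ] H) K}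
    (h : ∀ v : α → H, F (fun k => 1 ⊗ₜ v k) = F' (fun k => 1 ⊗ₜ v k)) : F = F' := by
  let b := Module.finBasis ℚ H
  refine Basis.ext_multilinear (fun _ => Algebra.TensorProduct.basis K b) fun I => ?_
  simp only [Algebra.TensorProduct.basis_apply]
  exact h fun k => b (I k)

/-- The endomorphisms as a space. -/
def homS (X : AV) : Submodule ℚ (Module.End ℚ X.H) where
  carrier := {f | IsHom X X f}
  add_mem' := by
    rintro f g ⟨Ψ, h⟩ ⟨Ψ', h'⟩
    refine ⟨Ψ + Ψ', fun v => ?_⟩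
    rw [LinearMap.add_apply, h, h', LinearMap.add_apply, map_add]
  zero_mem' := ⟨0, fun v => by
    rw [LinearMap.zero_apply, LinearMap.zero_apply, map_zero]⟩
  smul_mem' := by
    rintro c f ⟨Ψ, h⟩
    refine ⟨(c : ℂ) • Ψ, fun v => ?_⟩
    have h1 := map_ratCast_smul X.per ℚ ℂ c (f v)
    rw [Rat.cast_id] at h1
    rw [LinearMap.smul_apply, h, LinearMap.smul_apply, h1]

variable {K : Type} [Field K] [CharZero K] [Algebra K ℂ] [Algebra.IsAlgebraic K ℂ]
  {Γ : Type} [Group Γ] {X : AV} {E : X.H → X.H → ℚ} {ρ : Representation K Γ (K ⊗[ℚ] X.H)}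
  {χ : Γ →* K}

/-- A subgroup of finite index commutes with all endomorphisms. -/
theorem exists_comm_all (hρ : IsTateModule X.per E ρ χ) : ∃ Δ : Subgroup Γ, Δ.FiniteIndex ∧
    ∀ f : Module.End ℚ X.H, IsHom X X f → ∀ g ∈ Δ, ∀ v,
      ρ g (f.baseChange K v) = f.baseChange K (ρ g v) := by
  classical
  have hfd : FiniteDimensional ℚ X.H := (AV.isAV X).1
  let b := Module.finBasis ℚ (homS X)
  have h1 : ∀ i, ∃ Δ : Subgroup Γ, Δ.FiniteIndex ∧
      ∀ g ∈ Δ, ∀ v, ρ g (((b i : homS X) : Module.End ℚ X.H).baseChange K v) =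
        ((b i : homS X) : Module.End ℚ X.H).baseChange K (ρ g v) := fun i =>
    hρ.endo _ (b i).2
  choose Δ hΔ h2 using h1
  refine ⟨⨅ i, Δ i, Subgroup.finiteIndex_iInf hΔ, fun f hf g hg v => ?_⟩
  have h3 : f = ∑ i, b.repr ⟨f, hf⟩ i • ((b i : homS X) : Module.End ℚ X.H) := by
    have h4 := congrArg (homS X).subtype (b.sum_repr ⟨f, hf⟩)
    rw [map_sum] at h4
    exact h4.symm
  have h5 : ∀ w, f.baseChange K w = ∑ i, b.repr ⟨f, hf⟩ i •
      ((b i : homS X) : Module.End ℚ X.H).baseChange K w := by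
    intro w
    have h6 := congrArg (fun t => LinearMap.baseChangeHom ℚ K X.H X.H t w) h3
    beta_reduce at h6
    rw [map_sum, LinearMap.sum_apply] at h6
    refine h6.trans (Finset.sum_congr rfl fun i _ => ?_)
    rw [map_smul]
    rfl
  rw [h5, h5, map_sum]
  refine Finset.sum_congr rfl fun i _ => ?_
  rw [← h2 i g ((Subgroup.mem_iInf.1 hg) i)]
  rw [← algebraMap_smul K (b.repr ⟨f, hf⟩ i), map_smul, algebraMap_smul]

/-- Products over `Fin n`. -/
theorem PE_fin {α : Type} {r : MultilinearMap ℚ (fun _ : α => X.H) ℚ} (hr : r ∈ PE X E α) :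
    ∃ (n : ℕ) (e : Fin n × Fin 2 ≃ α) (f : Fin n → Module.End ℚ X.H),
      (∀ i, IsHom X X (f i)) ∧ ∀ v, r v = ∏ i, E (f i (v (e (i, 0)))) (v (e (i, 1))) := by
  obtain ⟨M, iM, e, f, hf, h⟩ := hr
  refine ⟨Fintype.card M, (Equiv.prodCongr (Fintype.equivFin M).symm (Equiv.refl _)).trans e,
    fun i => f ((Fintype.equivFin M).symm i), fun i => hf _, fun v => ?_⟩
  rw [h, ← Equiv.prod_comp (Fintype.equivFin M).symm]
  rfl

theorem ext_PE {ω : (K ⊗[ℚ] X.H) →ₗ[K] (K ⊗[ℚ] X.H) →ₗ[K] K}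
    (hω : ∀ u v : X.H, ω (1 ⊗ₜ u) (1 ⊗ₜ v) = ((E u v : ℚ) : K)) {α : Type} [Finite α]
    {r : MultilinearMap ℚ (fun _ : α => X.H) ℚ} (hr : r ∈ PE X E α)
    {F' : MultilinearMap K (fun _ : α => K ⊗[ℚ] X.H) K}
    (h : ∀ v : α → X.H, F' (fun k => 1 ⊗ₜ v k) = ((r v : ℚ) : K)) :
    ∃ (n : ℕ) (e : Fin n × Fin 2 ≃ α) (f : Fin n → Module.End ℚ X.H),
      (∀ i, IsHom X X (f i)) ∧
      ∀ x, F' x = ∏ i, ω ((f i).baseChange K (x (e (i, 0)))) (x (e (i, 1))) := by
  have hfd : FiniteDimensional ℚ X.H := (AV.isAV X).1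
  obtain ⟨n, e, f, hf, h1⟩ := PE_fin hr
  refine ⟨n, e, f, hf, ?_⟩
  have h2 : F' = (prodMap fun i => bil2 (ω.comp ((f i).baseChange K))).domDomCongr e := by
    refine ext_rat fun v => ?_
    rw [h, h1, MultilinearMap.domDomCongr_apply, Pool.Agent.H204R3.CM.prodMap_apply,
      Rat.cast_prod]
    refine Finset.prod_congr rfl fun i _ => ?_
    rw [bil2_apply, LinearMap.comp_apply, LinearMap.baseChange_tmul, hω]
  intro x
  rw [h2, MultilinearMap.domDomCongr_apply, Pool.Agent.H204R3.CM.prodMap_apply]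
  rfl

/-- **Decomposition of a partial evaluation.** -/
theorem dec_one (hE : Pool.Agent.Y90.St.IsPolarization X.per E)
    (hρ : IsTateModule X.per E ρ χ) {p : Module.End ℚ X.H} (k : IsCompl' X E ρ p)
    {ω : (K ⊗[ℚ] X.H) →ₗ[K] (K ⊗[ℚ] X.H) →ₗ[K] K}
    (hω : ∀ u v : X.H, ω (1 ⊗ₜ u) (1 ⊗ₜ v) = ((E u v : ℚ) : K))
    (hωρ : ∀ g u v, ω (ρ g u) (ρ g v) = χ g * ω u v)
    {m : ℕ} {φ : MultilinearMap K (fun _ : Fin m × Fin 2 => K ⊗[ℚ] X.H) K}
    (hφ : IsTate ρ χ m φ) {α β : Type} [Fintype α] [DecidableEq α] [Fintype β] [DecidableEq β]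
    (e : α ⊕ β ≃ Fin m × Fin 2) :
    ∃ (r : ℕ) (n : Fin r → ℕ) (s : ∀ j, Fin (n j) × Fin 2 ≃ α)
      (f : ∀ j, Fin (n j) → Module.End ℚ X.H)
      (ψ : Fin r → MultilinearMap K (fun _ : β => K ⊗[ℚ] X.H) K),
      (∀ j i, IsHom X X (f j i)) ∧
      (∀ j, ∃ Δ : Subgroup Γ, Δ.FiniteIndex ∧ ∀ g ∈ Δ, ∀ w,
        ψ j (fun k => ρ g (w k)) = χ g ^ (m - n j) * ψ j w) ∧
      (∀ j w, ψ j (fun k => p.baseChange K (w k)) = ψ j w) ∧
      ∀ x, cmpAB φ e ((1 - p).baseChange K) (p.baseChange K) x =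
        ∑ j, (∏ i, ω ((f j i).baseChange K (x (Sum.inl (s j (i, 0))))) (x (Sum.inl (s j (i, 1))))) *
          ψ j (fun k => x (Sum.inr k)) := by
  classical
  have hfd : FiniteDimensional ℚ X.H := (AV.isAV X).1
  obtain ⟨r, F, ψ, hFP, h1, h2, h3⟩ := Pool.Agent.N945.RB.PAR K (K ⊗[ℚ] X.H) α β
    (cmpAB φ e ((1 - p).baseChange K) (p.baseChange K))
    {F' : MultilinearMap K (fun _ : α => K ⊗[ℚ] X.H) K |
        ∃ r ∈ PE X E α, ∀ v : α → X.H, F' (fun k => 1 ⊗ₜ v k) = ((r v : ℚ) : K)}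
    (fun w => ⟨_, span_fix Pool.Agent.N413.RBFFTQ.FFTQ hE hρ k hφ e w, fun v =>
      (fixR_apply _ _ _).symm⟩)
  have h4 : ∀ F' ∈ {F' : MultilinearMap K (fun _ : α => K ⊗[ℚ] X.H) K |
        ∃ r ∈ PE X E α, ∀ v : α → X.H, F' (fun k => 1 ⊗ₜ v k) = ((r v : ℚ) : K)},
      ∃ (n : ℕ) (e : Fin n × Fin 2 ≃ α) (f : Fin n → Module.End ℚ X.H),
        (∀ i, IsHom X X (f i)) ∧
        ∀ x, F' x = ∏ i, ω ((f i).baseChange K (x (e (i, 0)))) (x (e (i, 1))) := by
    rintro F' ⟨r, hr, h⟩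
    exact ext_PE hω hr h
  choose n s f hf h5 using fun j => h4 (F j) (hFP j)
  obtain ⟨Δ₁, hΔ₁, hcomm⟩ := exists_comm_all hρ
  obtain ⟨Δ₂, hΔ₂, hφΔ⟩ := hφ
  refine ⟨r, n, s, f, ψ, hf, fun j => ⟨Δ₁ ⊓ Δ₂, inferInstance, fun g hg w => ?_⟩, fun j w =>
    h3 (p.baseChange K) (fun v w => ?_) j w, fun x => ?_⟩
  · have hχ : χ g ≠ 0 := ((Group.isUnit g).map χ).ne_zero
    have hn : n j ≤ m := by
      have h6 := Fintype.card_congr (s j)
      have h7 := Fintype.card_congr e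
      rw [Fintype.card_prod, Fintype.card_fin, Fintype.card_fin] at h6
      rw [Fintype.card_sum, Fintype.card_prod, Fintype.card_fin, Fintype.card_fin] at h7
      omega
    let R : (K ⊗[ℚ] X.H) ≃ₗ[K] (K ⊗[ℚ] X.H) := LinearEquiv.ofLinear (ρ g) (ρ g⁻¹)
      (by rw [← Module.End.mul_eq_comp, ← map_mul, mul_inv_cancel, map_one]; rfl)
      (by rw [← Module.End.mul_eq_comp, ← map_mul, inv_mul_cancel, map_one]; rfl)
    have h6 := h2 R (χ g ^ m) (χ g ^ n j) (pow_ne_zero _ hχ) (fun v => by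
      rw [cmpAB_apply, cmpAB_apply, ← hφΔ g hg.2]
      congr 1
      funext x
      rcases e.symm x with i | i
      · exact (hcomm _ (isHom_sub isHom_one k.hom) g hg.1 _).symm
      · exact (hcomm _ k.hom g hg.1 _).symm) (fun F' hF' v => by
      obtain ⟨n', e', f', hf', h7⟩ := h4 F' hF'
      have h8 : n' = n j := by
        have h9 := Fintype.card_congr (e'.trans (s j).symm)
        rw [Fintype.card_prod, Fintype.card_prod, Fintype.card_fin, Fintype.card_fin,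
          Fintype.card_fin] at h9
        omega
      rw [h7, h7, ← h8]
      have h9 : ∀ i : Fin n', ω ((f' i).baseChange K (R (v (e' (i, 0))))) (R (v (e' (i, 1)))) =
          χ g * ω ((f' i).baseChange K (v (e' (i, 0)))) (v (e' (i, 1))) := by
        intro i
        change ω ((f' i).baseChange K (ρ g (v (e' (i, 0))))) (ρ g (v (e' (i, 1)))) = _
        rw [← hcomm _ (hf' i) g hg.1, hωρ]
      rw [Finset.prod_congr rfl fun i _ => h9 i, Finset.prod_mul_distrib, Finset.prod_const,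
        Finset.card_univ, Fintype.card_fin]) j w
    change ψ j (fun k => R (w k)) = _
    rw [h6, pow_sub₀ _ hχ hn, div_eq_mul_inv]
  · rw [cmpAB_apply, cmpAB_apply]
    congr 1
    funext x
    rcases e.symm x with i | i
    · rfl
    · change p.baseChange K (p.baseChange K (w i)) = p.baseChange K (w i)
      have h6 : p.baseChange K * p.baseChange K = p.baseChange K := by
        rw [← LinearMap.baseChange_mul, k.idem]
      exact LinearMap.congr_fun h6 (w i)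
  · rw [h1]
    refine Finset.sum_congr rfl fun j _ => ?_
    rw [h5]

end

end Pool.Agent.N183.U9
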