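import Mathlib
import Pool.Agent.N183.U9.RB5
import Pool.Agent.N183.U9.StmL

/-!
# Decomposition of Tate forms
-/

set_option linter.unusedSectionVars false
set_option linter.unusedVariables false

namespace Pool.Agent.N183.U9

open Matrix Module Pool.Agent.W437.HC Pool.Agent.W437.HD Pool.Agent.W548.Odd
open Pool.Agent.H204R3.SP Pool.Agent.H204R3.GP Pool.Agent.Y90 Pool.Agent.Y224.TS TensorProduct
open Pool.Agent.Y224.TS.St (IsHodgeTate IsTateModule)
open Pool.Agent.W437.HP (cK cK_mul cK_one)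
open Pool.Agent.R915 (VE mem_VE descent_gen commL_of IsFactor RealMax)
open Pool.Agent.N183.TS Pool.Agent.N183.U5 Pool.Agent.N183.U6 Pool.Agent.N183.U8
open Pool.Agent.H204R3.CM (prodMap)

noncomputable section

variable {K : Type} [Field K] [CharZero K] [Algebra K ℂ] [Algebra.IsAlgebraic K ℂ]
  {Γ : Type} [Group Γ] {X : AV} {E : X.H → X.H → ℚ} {ρ : Representation K Γ (K ⊗[ℚ] X.H)}
  {χ : Γ →* K}

/-- The product, over the pairs of a bijection of `Fin n × Fin 2` with a set `S` of variables, of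
the forms `ω (f u) v`, and a form `ψ` of the other variables which is invariant up to the power
`m - n` of `χ` under a subgroup of finite index, and depends on the images under `p` only. -/
def IsProdForm {K : Type} [Field K] [CharZero K] {Γ : Type} [Group Γ] (X : AV)
    (p : Module.End ℚ X.H) (ρ : Representation K Γ (K ⊗[ℚ] X.H)) (χ : Γ →* K)
    (ω : (K ⊗[ℚ] X.H) →ₗ[K] (K ⊗[ℚ] X.H) →ₗ[K] K) (m : ℕ)
    (F : (Fin m × Fin 2 → K ⊗[ℚ] X.H) → K) : Prop :=
  ∃ (S : Finset (Fin m × Fin 2)) (n : ℕ) (s : Fin n × Fin 2 ≃ {k // k ∈ S})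
    (f : Fin n → Module.End ℚ X.H)
    (ψ : MultilinearMap K (fun _ : {k // k ∉ S} => K ⊗[ℚ] X.H) K),
    (∀ i, IsHom X X (f i)) ∧
    (∃ Δ : Subgroup Γ, Δ.FiniteIndex ∧ ∀ g ∈ Δ, ∀ w,
      ψ (fun k => ρ g (w k)) = χ g ^ (m - n) * ψ w) ∧
    (∀ w, ψ (fun k => p.baseChange K (w k)) = ψ w) ∧
    ∀ x, F x = (∏ i, ω ((f i).baseChange K (x (s (i, 0)))) (x (s (i, 1)))) *
      ψ (fun k => x k)

/-- **Decomposition of Tate forms.** -/
theorem dec_all (hE : Pool.Agent.Y90.St.IsPolarization X.per E)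
    (hρ : IsTateModule X.per E ρ χ) {p : Module.End ℚ X.H} (k : IsCompl' X E ρ p)
    {ω : (K ⊗[ℚ] X.H) →ₗ[K] (K ⊗[ℚ] X.H) →ₗ[K] K}
    (hω : ∀ u v : X.H, ω (1 ⊗ₜ u) (1 ⊗ₜ v) = ((E u v : ℚ) : K))
    (hωρ : ∀ g u v, ω (ρ g u) (ρ g v) = χ g * ω u v)
    {m : ℕ} {φ : MultilinearMap K (fun _ : Fin m × Fin 2 => K ⊗[ℚ] X.H) K}
    (hφ : IsTate ρ χ m φ) :
    (φ : (Fin m × Fin 2 → K ⊗[ℚ] X.H) → K) ∈
      Submodule.span K {F | IsProdForm X p ρ χ ω m F} := by
  classical
  have h1 : (φ : (Fin m × Fin 2 → K ⊗[ℚ] X.H) → K) =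
      ∑ S : Finset (Fin m × Fin 2), fun x =>
        cmpAB φ (Equiv.sumCompl (· ∈ S)) ((1 - p).baseChange K) (p.baseChange K)
          (fun k => x (Equiv.sumCompl (· ∈ S) k)) := by
    funext x
    rw [Finset.sum_apply]
    have h2 : x = (fun k => (1 - p).baseChange K (x k)) + fun k => p.baseChange K (x k) := by
      funext k
      rw [Pi.add_apply, ← LinearMap.add_apply]
      have h3 : (1 - p).baseChange K + p.baseChange K = 1 := by
        rw [← LinearMap.baseChange_add, sub_add_cancel]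
        exact LinearMap.baseChange_one ℚ X.H
      rw [h3, End.one_apply]
    conv_lhs => rw [h2, MultilinearMap.map_add_univ]
    refine Finset.sum_congr rfl fun S _ => ?_
    rw [cmpAB_apply]
    congr 1
    funext k
    by_cases hk : k ∈ S
    · rw [Finset.piecewise_eq_of_mem _ _ _ hk, Equiv.sumCompl_symm_apply_of_pos hk]
      rfl
    · rw [Finset.piecewise_eq_of_notMem _ _ _ hk, Equiv.sumCompl_symm_apply_of_neg hk]
      rfl
  rw [h1]
  refine Submodule.sum_mem _ fun S _ => ?_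
  obtain ⟨r, n, s, f, ψ, hf, hΔ, hp, h⟩ := dec_one hE hρ k hω hωρ hφ
    (Equiv.sumCompl (· ∈ S))
  have h2 : (fun x : Fin m × Fin 2 → K ⊗[ℚ] X.H =>
      cmpAB φ (Equiv.sumCompl (· ∈ S)) ((1 - p).baseChange K) (p.baseChange K)
          (fun k => x (Equiv.sumCompl (· ∈ S) k))) =
      ∑ j, fun x => (∏ i, ω ((f j i).baseChange K (x (s j (i, 0)))) (x (s j (i, 1)))) *
        ψ j (fun k => x k) := by
    funext x
    rw [Finset.sum_apply, h]
    rfl
  rw [h2]
  refine Submodule.sum_mem _ fun j _ => Submodule.subset_span ?_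
  exact ⟨S, n j, s j, f j, ψ j, hf j, hΔ j, hp j, fun x => rfl⟩

end

end Pool.Agent.N183.U9
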