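import Mathlib
import Pool.Agent.N183.U9.RB6

/-!
# Algebraic forms
-/

set_option linter.unusedSectionVars false
set_option linter.unusedVariables false

namespace Pool.Agent.N183.U9

open Matrix Module Pool.Agent.W437.HC Pool.Agent.W437.HD Pool.Agent.W548.Odd
open Pool.Agent.H204R3.SP Pool.Agent.H204R3.GP Pool.Agent.Y90 Pool.Agent.Y224.TS TensorProduct
open Pool.Agent.Y224.TS.St (IsHodgeTate IsTateModule)
open Pool.Agent.R915 (VE mem_VE descent_gen commL_of IsFactor RealMax)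
open Pool.Agent.N183.TS Pool.Agent.N183.U5 Pool.Agent.N183.U6 Pool.Agent.N183.U8

noncomputable section

/-- The properties of the spaces `A m` of the forms in `2 m` variables which are given by algebraic
cycles on the powers of `X`: they contain the forms given by divisors on `X × X`, and products. -/
structure IsTheory {K : Type} [Field K] [CharZero K] (X : AV)
    (ω : (K ⊗[ℚ] X.H) →ₗ[K] (K ⊗[ℚ] X.H) →ₗ[K] K)
    (A : ∀ m : ℕ, Submodule K (MultilinearMap K (fun _ : Fin m × Fin 2 => K ⊗[ℚ] X.H) K)) :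
    Prop where
  one : ∃ H ∈ A 0, ∀ x, H x = 1
  divisor : ∀ f : Module.End ℚ X.H, IsHom X X f →
    ∃ H ∈ A 1, ∀ x, H x = ω (f.baseChange K (x (0, 0))) (x (0, 1))
  product : ∀ {n l m : ℕ} (e : (Fin n × Fin 2) ⊕ (Fin l × Fin 2) ≃ Fin m × Fin 2),
    ∀ F ∈ A n, ∀ G ∈ A l, ∃ H ∈ A m, ∀ x,
      H x = F (fun k => x (e (Sum.inl k))) * G (fun k => x (e (Sum.inr k)))

theorem IsTheory.prod {K : Type} [Field K] [CharZero K] {X : AV}
    {ω : (K ⊗[ℚ] X.H) →ₗ[K] (K ⊗[ℚ] X.H) →ₗ[K] K}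
    {A : ∀ m : ℕ, Submodule K (MultilinearMap K (fun _ : Fin m × Fin 2 => K ⊗[ℚ] X.H) K)}
    (h : IsTheory X ω A) (n : ℕ) (f : Fin n → Module.End ℚ X.H) (hf : ∀ i, IsHom X X (f i)) :
    ∃ H ∈ A n, ∀ x, H x = ∏ i, ω ((f i).baseChange K (x (i, 0))) (x (i, 1)) := by
  induction n with
  | zero =>
    obtain ⟨H, hH, h1⟩ := h.one
    exact ⟨H, hH, fun x => by rw [h1, Finset.univ_eq_empty, Finset.prod_empty]⟩
  | succ n ih =>
    obtain ⟨F, hF, h1⟩ := ih (fun i => f i.castSucc) fun i => hf _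
    obtain ⟨G, hG, h2⟩ := h.divisor (f (Fin.last n)) (hf _)
    obtain ⟨H, hH, h3⟩ := h.product ((Equiv.sumProdDistrib (Fin n) (Fin 1) (Fin 2)).symm.trans
      (Equiv.prodCongr finSumFinEquiv (Equiv.refl _))) F hF G hG
    refine ⟨H, hH, fun x => ?_⟩
    rw [h3, h1, h2, Fin.prod_univ_castSucc]
    rfl

variable {K : Type} [Field K] [CharZero K] [Algebra K ℂ] [Algebra.IsAlgebraic K ℂ]
  {Γ : Type} [Group Γ] {X : AV} {E : X.H → X.H → ℚ} {ρ : Representation K Γ (K ⊗[ℚ] X.H)}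
  {χ : Γ →* K}

/-- **Tate forms are algebraic if those of `B` are.** -/
theorem alg_iff (hE : Pool.Agent.Y90.St.IsPolarization X.per E)
    (hρ : IsTateModule X.per E ρ χ) {p : Module.End ℚ X.H} (k : IsCompl' X E ρ p)
    {ω : (K ⊗[ℚ] X.H) →ₗ[K] (K ⊗[ℚ] X.H) →ₗ[K] K}
    (hω : ∀ u v : X.H, ω (1 ⊗ₜ u) (1 ⊗ₜ v) = ((E u v : ℚ) : K))
    (hωρ : ∀ g u v, ω (ρ g u) (ρ g v) = χ g * ω u v)
    {A : ∀ m : ℕ, Submodule K (MultilinearMap K (fun _ : Fin m × Fin 2 => K ⊗[ℚ] X.H) K)}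
    (h : IsTheory X ω A) :
    (∀ m φ, IsTate ρ χ m φ → φ ∈ A m) ↔
      ∀ m ψ, IsTate ρ χ m ψ → (∀ w, ψ (fun k => p.baseChange K (w k)) = ψ w) → ψ ∈ A m := by
  classical
  refine ⟨fun h1 m ψ hψ _ => h1 m ψ hψ, fun h1 m φ hφ => ?_⟩
  let P : Submodule K ((Fin m × Fin 2 → K ⊗[ℚ] X.H) → K) :=
    { carrier := {F | ∃ H ∈ A m, ∀ x, F x = H x}
      zero_mem' := ⟨0, Submodule.zero_mem _, fun x => rfl⟩
      add_mem' := by
        rintro F G ⟨H, hH, h2⟩ ⟨H', hH', h3⟩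
        exact ⟨H + H', Submodule.add_mem _ hH hH', fun x => by
          rw [Pi.add_apply, h2, h3, MultilinearMap.add_apply]⟩
      smul_mem' := by
        rintro c F ⟨H, hH, h2⟩
        exact ⟨c • H, Submodule.smul_mem _ c hH, fun x => by
          rw [Pi.smul_apply, h2, MultilinearMap.smul_apply]⟩ }
  have h2 : Submodule.span K {F | IsProdForm X p ρ χ ω m F} ≤ P := by
    refine Submodule.span_le.2 ?_
    rintro F ⟨S, n, s, f, ψ, hf, ⟨Δ, hΔ, hψ⟩, hp, hF⟩
    have hc : Fintype.card {k : Fin m × Fin 2 // k ∈ S} +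
        Fintype.card {k : Fin m × Fin 2 // k ∉ S} = Fintype.card (Fin m × Fin 2) := by
      rw [← Fintype.card_sum]
      exact Fintype.card_congr (Equiv.sumCompl (· ∈ S))
    have hc1 := Fintype.card_congr s
    rw [Fintype.card_prod, Fintype.card_fin, Fintype.card_fin] at hc1
    rw [Fintype.card_prod, Fintype.card_fin, Fintype.card_fin] at hc
    have t : {k : Fin m × Fin 2 // k ∉ S} ≃ Fin (m - n) × Fin 2 := Fintype.equivOfCardEq (by
      rw [Fintype.card_prod, Fintype.card_fin, Fintype.card_fin]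
      omega)
    obtain ⟨D, hD, h3⟩ := h.prod n f hf
    have h4 := h1 (m - n) (ψ.domDomCongr t) ⟨Δ, hΔ, fun g hg w => by
      rw [MultilinearMap.domDomCongr_apply, MultilinearMap.domDomCongr_apply, hψ g hg]⟩ fun w => by
      rw [MultilinearMap.domDomCongr_apply, MultilinearMap.domDomCongr_apply]
      exact hp fun k => w (t k)
    obtain ⟨H, hH, h5⟩ := h.product ((Equiv.sumCongr s t.symm).trans (Equiv.sumCompl (· ∈ S)))
      D hD _ h4
    refine ⟨H, hH, fun x => ?_⟩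
    rw [hF, h5, h3, MultilinearMap.domDomCongr_apply]
    congr 1
    congr 1
    funext k
    change x k = x ((Equiv.sumCompl (· ∈ S)) (Sum.inr (t.symm (t k))))
    rw [Equiv.symm_apply_apply]
    rfl
  obtain ⟨H, hH, h3⟩ := h2 (dec_all hE hρ k hω hωρ hφ)
  have h4 : φ = H := MultilinearMap.ext h3
  rw [h4]
  exact hH

end

end Pool.Agent.N183.U9
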